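import Mathlib

/-! Definitions for the level of distribution of the primes. -/

namespace Pool.Agent.Results.MP_00e23e_nt

open Finset

/-- the logarithmic integral from 2 to x -/
noncomputable def li (x : ℝ) : ℝ := ∫ t in (2 : ℝ)..x, (Real.log t)⁻¹

/-- number of primes p ≤ x with p ≡ l mod d -/
noncomputable def primeCount (x : ℝ) (d l : ℕ) : ℕ :=
  ((Icc 1 ⌊x⌋₊).filter (fun p => p.Prime ∧ p ≡ l [MOD d])).card

/-- the error term E(x;d,l) -/
noncomputable def err (x : ℝ) (d l : ℕ) : ℝ := (primeCount x d l : ℝ) - li x / (d.totient : ℝ)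

/-- the largest value of |E(x;d,l)| over 1 ≤ l ≤ d coprime to d -/
noncomputable def maxErr (x : ℝ) (d : ℕ) : ℝ :=
  sSup {y : ℝ | ∃ l : ℕ, 1 ≤ l ∧ l ≤ d ∧ l.Coprime d ∧ y = |err x d l|}

/-- admissible exponents, as in the problem -/
def Admissible (α : ℝ) : Prop :=
  ∀ U : ℝ, 0 < U → ∃ C : ℝ, ∀ x : ℝ, 3 ≤ x →
    ∑ d ∈ (Icc 1 ⌊x ^ α⌋₊).filter Squarefree, maxErr x d ≤ C * (x / (Real.log x) ^ U)

/-- number of reduced classes l mod m with l ≡ a mod m/r and |E(x;m,l)| ≤ e -/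
noncomputable def goodCount (x : ℝ) (m r a : ℕ) (e : ℝ) : ℕ :=
  ((Icc 1 m).filter (fun l => l.Coprime m ∧ l ≡ a [MOD m / r] ∧ |err x m l| ≤ e)).card

/-- For prescribed functions r, a of m: at some point x' of each interval [x, x + x/(log x)^U], on
average over m ≤ x^β, the progression of the reduced classes l ≡ a m modulo m/(r m) (where r m is a
prime factor of m with r m ≥ m^ζ) contains at least min((log m)^(2U+2), r m - 1) classes modulo m
in which the error term is small. -/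
def FewGood (β ζ : ℝ) : Prop :=
  ∀ r a : ℕ → ℕ, ∀ U : ℝ, 0 < U → ∃ C : ℝ, ∀ x : ℝ, 3 ≤ x →
    ∃ x' : ℝ, x ≤ x' ∧ x' ≤ x + x / (Real.log x) ^ U ∧ ∃ e : ℕ → ℝ,
    (∀ m, 0 ≤ e m) ∧ ∑ m ∈ Icc 1 ⌊x ^ β⌋₊, e m ≤ C * (x / (Real.log x) ^ U) ∧
    ∀ m ∈ Icc 1 ⌊x ^ β⌋₊, Squarefree m → (r m).Prime → r m ∣ m → (m : ℝ) ^ ζ ≤ r m →
      (a m).Coprime (m / r m) →
      min ((Real.log m) ^ (2 * U + 2)) ((r m : ℝ) - 1) ≤ (goodCount x' m (r m) (a m) (e m) : ℝ)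

end Pool.Agent.Results.MP_00e23e_nt
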