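import Pool.Agent.Lib.EH.Sieve
import Pool.Agent.Lib.EH.Defs

/-! Basic facts about the counting functions. -/

namespace Pool.Agent.Lib.EH

open Finset Pool.Agent.Results.MP_00e23e_nt

lemma li_nonneg {x : ℝ} (hx : 2 ≤ x) : 0 ≤ li x := by
  unfold li
  apply intervalIntegral.integral_nonneg hx
  intro t ht
  have : 0 ≤ Real.log t := Real.log_nonneg (by linarith [ht.1])
  positivity

lemma li_le {x : ℝ} (hx : 2 ≤ x) : li x ≤ 2 * x := by
  unfold li
  have h := intervalIntegral.norm_integral_le_of_norm_le_const (a := 2) (b := x)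
    (f := fun t => (Real.log t)⁻¹) (C := 2) (by
      intro t ht
      rw [Set.uIoc_of_le hx] at ht
      have h1 : Real.log 2 ≤ Real.log t := Real.log_le_log (by norm_num) ht.1.le
      have h2 : (0.5 : ℝ) < Real.log 2 := by
        have := Real.log_two_gt_d9
        linarith
      rw [Real.norm_eq_abs, abs_of_nonneg (inv_nonneg.mpr (by linarith))]
      rw [show (2 : ℝ) = (0.5)⁻¹ by norm_num]
      exact inv_anti₀ (by norm_num) (by linarith))
  rw [abs_of_nonneg (by linarith)] at h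
  have h2 := le_trans (le_abs_self _) h
  linarith

lemma errSet_finite (x : ℝ) (d : ℕ) :
    {y : ℝ | ∃ l : ℕ, 1 ≤ l ∧ l ≤ d ∧ l.Coprime d ∧ y = |err x d l|}.Finite := by
  apply Set.Finite.subset ((Finset.Icc 1 d).image (fun l => |err x d l|)).finite_toSet
  rintro y ⟨l, h1, h2, _, rfl⟩
  simp only [coe_image, coe_Icc, Set.mem_image, Set.mem_Icc]
  exact ⟨l, ⟨h1, h2⟩, rfl⟩

lemma le_maxErr (x : ℝ) (d l : ℕ) (h1 : 1 ≤ l) (h2 : l ≤ d) (h3 : l.Coprime d) :
    |err x d l| ≤ maxErr x d :=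
  le_csSup (errSet_finite x d).bddAbove ⟨l, h1, h2, h3, rfl⟩

lemma exists_maxErr (x : ℝ) {d : ℕ} (hd : 1 ≤ d) :
    ∃ l : ℕ, 1 ≤ l ∧ l ≤ d ∧ l.Coprime d ∧ maxErr x d = |err x d l| := by
  have hne : {y : ℝ | ∃ l : ℕ, 1 ≤ l ∧ l ≤ d ∧ l.Coprime d ∧ y = |err x d l|}.Nonempty :=
    ⟨_, 1, le_rfl, hd, Nat.coprime_one_left d, rfl⟩
  exact hne.csSup_mem (errSet_finite x d)

lemma maxErr_nonneg (x : ℝ) (d : ℕ) : 0 ≤ maxErr x d := by
  apply Real.sSup_nonneg
  rintro y ⟨l, _, _, _, rfl⟩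
  exact abs_nonneg _

lemma primeCount_le {x : ℝ} (hx : 0 ≤ x) (d l : ℕ) : (primeCount x d l : ℝ) ≤ x := by
  unfold primeCount
  have h1 := Finset.card_filter_le (Icc 1 ⌊x⌋₊) (fun p => p.Prime ∧ p ≡ l [MOD d])
  rw [Nat.card_Icc] at h1
  have h2 : (((Icc 1 ⌊x⌋₊).filter (fun p => p.Prime ∧ p ≡ l [MOD d])).card : ℝ) ≤ (⌊x⌋₊ : ℝ) := by
    exact_mod_cast (by omega)
  exact h2.trans (Nat.floor_le hx)

lemma err_le {x : ℝ} (hx : 2 ≤ x) {d : ℕ} (hd : 1 ≤ d) (l : ℕ) : |err x d l| ≤ 2 * x := by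
  unfold err
  have h1 := primeCount_le (by linarith : 0 ≤ x) d l
  have h2 := li_nonneg hx
  have h3 := li_le hx
  have h4 : (1 : ℝ) ≤ d.totient := by exact_mod_cast Nat.totient_pos.mpr hd
  have h5 : li x / d.totient ≤ li x := div_le_self h2 h4
  have h6 : 0 ≤ li x / d.totient := by positivity
  have h7 : (0 : ℝ) ≤ primeCount x d l := by positivity
  rw [abs_le]
  constructor <;> linarith

lemma maxErr_le {x : ℝ} (hx : 2 ≤ x) (d : ℕ) (hd : 1 ≤ d) : maxErr x d ≤ 2 * x := by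
  obtain ⟨l, _, _, _, h⟩ := exists_maxErr x hd
  rw [h]
  exact err_le hx hd l

/-- product bound -/
lemma prod_bound (s : Finset ℕ) (hs : ∀ p ∈ s, 2 ≤ p) :
    (1 : ℝ) ≤ (s.card + 1) * ∏ p ∈ s, (1 - (p : ℝ)⁻¹) := by
  induction s using Finset.induction_on_max with
  | empty => simp
  | insert a s ha ih =>
    have hna : a ∉ s := fun h => (ha a h).false
    have ih' := ih (fun p hp => hs p (Finset.mem_insert_of_mem hp))
    have ha2 : 2 ≤ a := hs a (Finset.mem_insert_self a s)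
    rw [Finset.prod_insert hna, Finset.card_insert_of_notMem hna]
    push_cast
    have hcard : s.card + 2 ≤ a := by
      have : s ⊆ Finset.Ico 2 a := by
        intro p hp
        simp only [Finset.mem_Ico]
        exact ⟨hs p (Finset.mem_insert_of_mem hp), ha p hp⟩
      have := Finset.card_le_card this
      simp at this
      omega
    have hcR : (s.card : ℝ) + 2 ≤ a := by exact_mod_cast hcard
    have hapos : (0 : ℝ) < a := by positivity
    have hprod : (0 : ℝ) ≤ ∏ p ∈ s, (1 - (p : ℝ)⁻¹) := by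
      apply Finset.prod_nonneg
      intro p hp
      have : (2 : ℝ) ≤ p := by exact_mod_cast hs p (Finset.mem_insert_of_mem hp)
      have : (p : ℝ)⁻¹ ≤ 1 := inv_le_one_of_one_le₀ (by linarith)
      linarith
    have h1 : (s.card : ℝ) + 1 ≤ (s.card + 1 + 1) * (1 - (a : ℝ)⁻¹) := by
      have h2 : ((s.card : ℝ) + 2) * (a : ℝ)⁻¹ ≤ 1 := by
        rw [← div_eq_mul_inv, div_le_one hapos]; exact hcR
      nlinarith
    calc (1 : ℝ) ≤ (s.card + 1) * ∏ p ∈ s, (1 - (p : ℝ)⁻¹) := ih'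
      _ ≤ ((s.card + 1 + 1) * (1 - (a : ℝ)⁻¹)) * ∏ p ∈ s, (1 - (p : ℝ)⁻¹) :=
        mul_le_mul_of_nonneg_right h1 hprod
      _ = _ := by ring

lemma le_totient (d : ℕ) : (d : ℝ) ≤ (d.primeFactors.card + 1) * d.totient := by
  have h1 := Nat.totient_eq_mul_prod_factors d
  have h2 : (d.totient : ℝ) = d * ∏ p ∈ d.primeFactors, (1 - (p : ℝ)⁻¹) := by
    have : ((d.totient : ℚ) : ℝ) = ((d * ∏ p ∈ d.primeFactors, (1 - (p : ℚ)⁻¹) : ℚ) : ℝ) := by
      rw [h1]
    push_cast at this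
    exact this
  rw [h2]
  have h3 := prod_bound d.primeFactors (fun p hp => (Nat.prime_of_mem_primeFactors hp).two_le)
  have h4 : (0 : ℝ) ≤ d := by positivity
  calc (d : ℝ) = d * 1 := by ring
    _ ≤ d * ((d.primeFactors.card + 1) * ∏ p ∈ d.primeFactors, (1 - (p : ℝ)⁻¹)) :=
      mul_le_mul_of_nonneg_left h3 h4
    _ = _ := by ring

lemma card_primeFactors_le {d : ℕ} (hd : 1 ≤ d) : (d.primeFactors.card : ℝ) ≤ 2 * Real.log d := by
  have h1 : 2 ^ d.primeFactors.card ≤ d := by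
    calc 2 ^ d.primeFactors.card = ∏ _p ∈ d.primeFactors, 2 := by simp
      _ ≤ ∏ p ∈ d.primeFactors, p :=
        Finset.prod_le_prod' fun p hp => (Nat.prime_of_mem_primeFactors hp).two_le
      _ ≤ d := Nat.le_of_dvd (by omega) (Nat.prod_primeFactors_dvd d)
  have h2 : ((2 : ℝ)) ^ d.primeFactors.card ≤ d := by exact_mod_cast h1
  have h3 := Real.log_le_log (by positivity) h2
  rw [Real.log_pow] at h3
  have h4 := Real.log_two_gt_d9
  have h5 : (0 : ℝ) ≤ d.primeFactors.card := by positivity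
  nlinarith

/-- indices n with l + d n a prime at most x -/
noncomputable def nn (x : ℝ) (d l : ℕ) : Finset ℕ :=
  (range (⌊x / d⌋₊ + 1)).filter (fun n => (l + d * n).Prime ∧ l + d * n ≤ ⌊x⌋₊)

lemma cong_ge {d l p : ℕ} (hl2 : l ≤ d) (hp : 1 ≤ p) (h : p ≡ l [MOD d]) :
    ∃ n, p = l + d * n := by
  have hlp : l ≤ p := by
    by_contra hlt
    push Not at hlt
    have h2 : d ∣ l - p := (Nat.modEq_iff_dvd' hlt.le).mp h
    have := Nat.le_of_dvd (by omega) h2
    omega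
  have h2 : d ∣ p - l := (Nat.modEq_iff_dvd' hlp).mp h.symm
  obtain ⟨n, hn⟩ := h2
  exact ⟨n, by omega⟩

lemma le_div_of {x : ℝ} (hx : 0 ≤ x) {d l n : ℕ} (hd : 1 ≤ d) (h : l + d * n ≤ ⌊x⌋₊) :
    n < ⌊x / d⌋₊ + 1 := by
  rw [Nat.lt_succ_iff]
  apply Nat.le_floor
  rw [le_div_iff₀ (by positivity)]
  have h1 : ((l + d * n : ℕ) : ℝ) ≤ x := (Nat.cast_le.mpr h).trans (Nat.floor_le hx)
  push_cast at h1
  have : (0 : ℝ) ≤ l := by positivity
  linarith

lemma card_nn {x : ℝ} (hx : 0 ≤ x) {d l : ℕ} (hd : 1 ≤ d) (hl2 : l ≤ d) :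
    (nn x d l).card = primeCount x d l := by
  unfold nn primeCount
  apply Finset.card_bij (fun n _ => l + d * n)
  · intro n hn
    simp only [mem_filter, mem_range] at hn
    simp only [mem_filter, mem_Icc]
    refine ⟨⟨hn.2.1.pos, hn.2.2⟩, hn.2.1, ?_⟩
    simp [Nat.ModEq]
  · intro a _ b _ hab
    have : d * a = d * b := by omega
    exact Nat.eq_of_mul_eq_mul_left (by omega) this
  · intro p hp
    simp only [mem_filter, mem_Icc] at hp
    obtain ⟨n, hn⟩ := cong_ge hl2 hp.1.1 hp.2.2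
    refine ⟨n, ?_, hn.symm⟩
    simp only [mem_filter, mem_range]
    have h1 : l + d * n ≤ ⌊x⌋₊ := by omega
    exact ⟨le_div_of hx hd h1, by rw [← hn]; exact hp.2.1, h1⟩

lemma cnt_nn {x : ℝ} (hx : 0 ≤ x) {d l r t : ℕ} (hd : 1 ≤ d) (hl2 : l ≤ d) (ht : t < r) :
    cnt (nn x d l) r t = primeCount x (d * r) (l + d * t) := by
  unfold cnt primeCount
  congr 1
  apply Finset.card_bij (fun n _ => l + d * n)
  · intro n hn
    unfold nn at hn
    simp only [mem_filter, mem_range] at hn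
    obtain ⟨⟨_, h2, h3⟩, h4⟩ := hn
    simp only [mem_filter, mem_Icc]
    refine ⟨⟨h2.pos, h3⟩, h2, ?_⟩
    have h5 : n ≡ t [MOD r] := by unfold Nat.ModEq; rw [h4, Nat.mod_eq_of_lt ht]
    exact Nat.ModEq.add_left l (Nat.ModEq.mul_left' d h5)
  · intro a _ b _ hab
    have : d * a = d * b := by omega
    exact Nat.eq_of_mul_eq_mul_left (by omega) this
  · intro p hp
    simp only [mem_filter, mem_Icc] at hp
    have hle : l + d * t ≤ d * r := by
      have : d * (t + 1) ≤ d * r := Nat.mul_le_mul_left d ht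
      rw [mul_add, mul_one] at this
      omega
    obtain ⟨k, hk⟩ := cong_ge hle hp.1.1 hp.2.2
    refine ⟨t + r * k, ?_, ?_⟩
    · have hk' : p = l + d * (t + r * k) := by rw [hk]; ring
      unfold nn
      simp only [mem_filter, mem_range]
      have h1 : l + d * (t + r * k) ≤ ⌊x⌋₊ := by omega
      refine ⟨⟨le_div_of hx hd h1, by rw [← hk']; exact hp.2.1, h1⟩, ?_⟩
      rw [Nat.add_mul_mod_self_left, Nat.mod_eq_of_lt ht]
    · rw [hk]; ring

lemma good_le {x : ℝ} {d l r : ℕ} (hd : 1 ≤ d) (hl1 : 1 ≤ l) (hl2 : l ≤ d) (hr : 0 < r) (e : ℝ) :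
    goodCount x (d * r) r l e ≤
      ((range r).filter (fun t => |err x (d * r) (l + d * t)| ≤ e)).card := by
  unfold goodCount
  apply Finset.card_le_card_of_injOn (fun l' => (l' - l) / d)
  · intro l' hl'
    simp only [coe_filter, mem_Icc, Set.mem_ofPred_eq] at hl'
    obtain ⟨⟨h1, h2⟩, _, h4, h5⟩ := hl'
    rw [Nat.mul_div_cancel _ hr] at h4
    obtain ⟨n, hn⟩ := cong_ge hl2 h1 h4
    have hn' : (l' - l) / d = n := by
      rw [hn, Nat.add_sub_cancel_left, Nat.mul_div_cancel_left _ (by omega)]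
    simp only [coe_filter, mem_range, Set.mem_ofPred_eq, hn']
    rw [← hn]
    refine ⟨?_, h5⟩
    have h6 : d * n < d * r := by omega
    exact lt_of_mul_lt_mul_left h6 (Nat.zero_le d)
  · intro a ha b hb hab
    simp only [coe_filter, mem_Icc, Set.mem_ofPred_eq] at ha hb
    obtain ⟨⟨h1, h2⟩, _, h4, h5⟩ := ha
    obtain ⟨⟨h1', h2'⟩, _, h4', h5'⟩ := hb
    rw [Nat.mul_div_cancel _ hr] at h4 h4'
    obtain ⟨n, hn⟩ := cong_ge hl2 h1 h4
    obtain ⟨n', hn'⟩ := cong_ge hl2 h1' h4'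
    simp only at hab
    rw [hn, hn', Nat.add_sub_cancel_left, Nat.add_sub_cancel_left,
      Nat.mul_div_cancel_left _ (by omega), Nat.mul_div_cancel_left _ (by omega)] at hab
    rw [hn, hn', hab]

end Pool.Agent.Lib.EH
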