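import Pool.Agent.Lib.EH.Primes

/-! The error term changes slowly with x. -/

namespace Pool.Agent.Lib.EH

open Finset Pool.Agent.Results.MP_00e23e_nt

lemma li_sub {x x' : ℝ} (hx : 3 ≤ x) (hxx : x ≤ x') : 0 ≤ li x' - li x ∧ li x' - li x ≤ 2 * (x' - x) := by
  have hint : ∀ a b : ℝ, 2 ≤ a → 2 ≤ b →
      IntervalIntegrable (fun t => (Real.log t)⁻¹) MeasureTheory.volume a b := by
    intro a b ha hb
    apply ContinuousOn.intervalIntegrable
    intro t ht
    have ht2 : 2 ≤ t := (le_min ha hb).trans ht.1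
    apply ContinuousAt.continuousWithinAt
    apply ContinuousAt.inv₀
    · exact Real.continuousAt_log (by linarith)
    · exact (Real.log_pos (by linarith)).ne'
  have h1 : li x' - li x = ∫ t in x..x', (Real.log t)⁻¹ := by
    unfold li
    rw [intervalIntegral.integral_interval_sub_left (hint 2 x' (by norm_num) (by linarith))
      (hint 2 x (by norm_num) (by linarith))]
  rw [h1]
  constructor
  · apply intervalIntegral.integral_nonneg hxx
    intro t ht
    have : 0 ≤ Real.log t := Real.log_nonneg (by linarith [ht.1])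
    positivity
  · have h := intervalIntegral.norm_integral_le_of_norm_le_const (a := x) (b := x')
      (f := fun t => (Real.log t)⁻¹) (C := 2) (by
        intro t ht
        rw [Set.uIoc_of_le hxx] at ht
        have h1 : Real.log 2 ≤ Real.log t := Real.log_le_log (by norm_num) (by linarith [ht.1])
        have h2 : (0.5 : ℝ) < Real.log 2 := by
          have := Real.log_two_gt_d9
          linarith
        rw [Real.norm_eq_abs, abs_of_nonneg (inv_nonneg.mpr (by linarith))]
        rw [show (2 : ℝ) = (0.5)⁻¹ by norm_num]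
        exact inv_anti₀ (by norm_num) (by linarith))
    rw [abs_of_nonneg (by linarith)] at h
    exact (le_abs_self _).trans h

lemma primeCount_sub {x x' : ℝ} (hx : 0 ≤ x) (hxx : x ≤ x') {d : ℕ} (hd : 1 ≤ d) (l : ℕ) :
    0 ≤ (primeCount x' d l : ℝ) - primeCount x d l ∧
    (primeCount x' d l : ℝ) - primeCount x d l ≤ (x' - x) / d + 3 := by
  have hfl : ⌊x⌋₊ ≤ ⌊x'⌋₊ := Nat.floor_le_floor hxx
  have hsub : (Icc 1 ⌊x⌋₊).filter (fun p => p.Prime ∧ p ≡ l [MOD d]) ⊆
      (Icc 1 ⌊x'⌋₊).filter (fun p => p.Prime ∧ p ≡ l [MOD d]) := by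
    apply Finset.filter_subset_filter
    exact Finset.Icc_subset_Icc le_rfl hfl
  constructor
  · have := Finset.card_le_card hsub
    unfold primeCount
    have h : (((Icc 1 ⌊x⌋₊).filter (fun p => p.Prime ∧ p ≡ l [MOD d])).card : ℝ) ≤
      (((Icc 1 ⌊x'⌋₊).filter (fun p => p.Prime ∧ p ≡ l [MOD d])).card : ℝ) := by exact_mod_cast this
    linarith
  · have hd0 : 0 < d := hd
    set v := l % d with hv
    have hvd : v < d := Nat.mod_lt _ hd0
    have c1 := count_bound hd0 (⌊x'⌋₊ + 1) v hvd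
    have c2 := count_bound hd0 (⌊x⌋₊ + 1) v hvd
    have hsub2 : (Icc 1 ⌊x'⌋₊).filter (fun p => p.Prime ∧ p ≡ l [MOD d]) \
        (Icc 1 ⌊x⌋₊).filter (fun p => p.Prime ∧ p ≡ l [MOD d]) ⊆
        (range (⌊x'⌋₊ + 1)).filter (fun n => n % d = v) \
          (range (⌊x⌋₊ + 1)).filter (fun n => n % d = v) := by
      intro p hp
      simp only [mem_sdiff, mem_filter, mem_Icc, mem_range, not_and] at hp ⊢
      obtain ⟨⟨⟨h1, h2⟩, h3, h4⟩, h5⟩ := hp
      refine ⟨⟨by omega, h4⟩, ?_⟩
      intro h6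
      exact absurd h4 (h5 ⟨h1, by omega⟩ h3)
    have hsub3 : (range (⌊x⌋₊ + 1)).filter (fun n => n % d = v) ⊆
        (range (⌊x'⌋₊ + 1)).filter (fun n => n % d = v) := by
      apply Finset.filter_subset_filter
      intro n hn
      simp only [mem_range] at hn ⊢
      omega
    have h1 := Finset.card_le_card hsub2
    rw [Finset.card_sdiff_of_subset hsub, Finset.card_sdiff_of_subset hsub3] at h1
    have h2 := Finset.card_le_card hsub
    have h3 := Finset.card_le_card hsub3
    have h4 : (primeCount x' d l : ℝ) - primeCount x d l ≤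
        (((range (⌊x'⌋₊ + 1)).filter (fun n => n % d = v)).card : ℝ) -
        (((range (⌊x⌋₊ + 1)).filter (fun n => n % d = v)).card : ℝ) := by
      have h5 : ((((Icc 1 ⌊x'⌋₊).filter (fun p => p.Prime ∧ p ≡ l [MOD d])).card -
        ((Icc 1 ⌊x⌋₊).filter (fun p => p.Prime ∧ p ≡ l [MOD d])).card : ℕ) : ℝ) ≤
        ((((range (⌊x'⌋₊ + 1)).filter (fun n => n % d = v)).card -
        ((range (⌊x⌋₊ + 1)).filter (fun n => n % d = v)).card : ℕ) : ℝ) := by exact_mod_cast h1
      rw [Nat.cast_sub h2, Nat.cast_sub h3] at h5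
      unfold primeCount
      exact h5
    have h6 := (abs_le.mp c1).2
    have h7 := (abs_le.mp c2).1
    have h8 : ((⌊x'⌋₊ : ℕ) : ℝ) ≤ x' := Nat.floor_le (by linarith)
    have h9 : x < (⌊x⌋₊ : ℝ) + 1 := Nat.lt_floor_add_one x
    have hdR : (1 : ℝ) ≤ d := by exact_mod_cast hd
    have h10 : (((⌊x'⌋₊ + 1 : ℕ) : ℝ) / d) - (((⌊x⌋₊ + 1 : ℕ) : ℝ) / d) ≤ (x' - x) / d + 1 := by
      rw [← sub_div]
      push_cast
      have h11 : ((⌊x'⌋₊ : ℝ) + 1 - ((⌊x⌋₊ : ℝ) + 1)) / d ≤ (x' - x + 1) / d := by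
        apply div_le_div_of_nonneg_right _ (by positivity)
        linarith
      have h12 : (x' - x + 1) / d = (x' - x) / d + 1 / d := by rw [add_div]
      have h13 : (1 : ℝ) / d ≤ 1 := by
        rw [div_le_one (by linarith)]; exact hdR
      linarith
    linarith

lemma err_cont {x x' y : ℝ} (hx : 3 ≤ x) (hxx : x ≤ x') {d : ℕ} (hd : 1 ≤ d) (hdx : (d : ℝ) ≤ x)
    (hy : y = Real.log x) (hy1 : 1 ≤ y) (l : ℕ) :
    |err x' d l - err x d l| ≤ 7 * y * ((x' - x) / d) + 3 := by
  have h1 := li_sub hx hxx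
  have h2 := primeCount_sub (by linarith : 0 ≤ x) hxx hd l
  have hdpos : (0 : ℝ) < d := by exact_mod_cast hd
  have hφ : (0 : ℝ) < d.totient := by exact_mod_cast Nat.totient_pos.mpr hd
  have h3 := le_totient d
  have h4 := card_primeFactors_le hd
  have h5 : Real.log d ≤ y := by rw [hy]; exact Real.log_le_log hdpos hdx
  have h6 : (d : ℝ) ≤ 3 * y * d.totient := by
    refine h3.trans ?_
    apply mul_le_mul_of_nonneg_right _ hφ.le
    linarith
  have h7 : (li x' - li x) / d.totient ≤ 6 * y * ((x' - x) / d) := by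
    rw [div_le_iff₀ hφ]
    have h8 : 6 * y * ((x' - x) / d) * d.totient = 2 * (x' - x) * (3 * y * d.totient) / d := by
      field_simp; ring
    rw [h8, le_div_iff₀ hdpos]
    have h9 : 0 ≤ x' - x := by linarith
    calc (li x' - li x) * d ≤ 2 * (x' - x) * d := mul_le_mul_of_nonneg_right h1.2 hdpos.le
      _ ≤ 2 * (x' - x) * (3 * y * d.totient) := mul_le_mul_of_nonneg_left h6 (by linarith)
  have h8 : 0 ≤ (li x' - li x) / d.totient := div_nonneg h1.1 hφ.le
  have h9 : err x' d l - err x d l = ((primeCount x' d l : ℝ) - primeCount x d l) -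
      (li x' - li x) / d.totient := by
    unfold err; ring
  have h10 : 0 ≤ (x' - x) / d := div_nonneg (by linarith) hdpos.le
  have h11 : (x' - x) / d ≤ y * ((x' - x) / d) := by nlinarith
  rw [h9, abs_le]
  constructor <;> nlinarith

end Pool.Agent.Lib.EH
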