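import Pool.Agent.Lib.EH.Main

/-! One lifting step for bad classes and for good classes. -/

namespace Pool.Agent.Lib.EH

open Finset Pool.Agent.Results.MP_00e23e_nt

/-- bad reduced classes mod d -/
noncomputable def BB (x : ℝ) (B d : ℕ) : Finset ℕ :=
  (Icc 1 d).filter (fun l => l.Coprime d ∧ x / (d * (Real.log x) ^ B) ≤ |err x d l|)

lemma dev_lower {x : ℝ} (hx : 2 ≤ x) {d l r t : ℕ} (hd : 1 ≤ d) (hl2 : l ≤ d)
    (hr : r.Prime) (hrd : d.Coprime r) (ht : t < r) {e : ℝ}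
    (he : e < |err x d l| / (4 * r))
    (hli : li x / (d.totient * ((r : ℝ) - 1)) ≤ |err x d l| / 2)
    (hte : |err x (d * r) (l + d * t)| ≤ e) :
    |err x d l| / (4 * r) ≤ |dev (nn x d l) r t| := by
  have hr0 : 0 < r := hr.pos
  have hrR : (2 : ℝ) ≤ r := by exact_mod_cast hr.two_le
  have hr1 : (0 : ℝ) < (r : ℝ) - 1 := by linarith
  have hφ : (0 : ℝ) < d.totient := by exact_mod_cast Nat.totient_pos.mpr hd
  set Δ := |err x d l| with hΔ
  have hc : err x (d * r) (l + d * t) = dev (nn x d l) r t + err x d l / r -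
      (li x / (d.totient * ((r : ℝ) - 1))) / r := by
    unfold dev err
    rw [cnt_nn (by linarith) hd hl2 ht, card_nn (by linarith) hd hl2,
      Nat.totient_mul hrd, Nat.totient_prime hr]
    push_cast [Nat.cast_sub hr.one_le]
    field_simp
    ring
  have h4 : Δ / (2 * r) ≤ |err x d l / r - (li x / (d.totient * ((r : ℝ) - 1))) / r| := by
    have h5 : |err x d l / r| = Δ / r := by
      rw [abs_div, abs_of_pos (by positivity : (0 : ℝ) < r)]
    have h6 : |(li x / (d.totient * ((r : ℝ) - 1))) / r| ≤ Δ / 2 / r := by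
      rw [abs_div, abs_of_pos (by positivity : (0 : ℝ) < r)]
      apply div_le_div_of_nonneg_right _ (by positivity)
      rw [abs_of_nonneg (div_nonneg (li_nonneg hx) (by positivity))]
      exact hli
    have h7 := abs_sub_abs_le_abs_sub (err x d l / r) ((li x / (d.totient * ((r : ℝ) - 1))) / r)
    rw [h5] at h7
    have h8 : Δ / (2 * r) = Δ / r - Δ / 2 / r := by field_simp; ring
    rw [h8]
    linarith
  have h10 : err x d l / r - (li x / (d.totient * ((r : ℝ) - 1))) / r =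
      err x (d * r) (l + d * t) - dev (nn x d l) r t := by rw [hc]; ring
  rw [h10] at h4
  have h11 := abs_sub (err x (d * r) (l + d * t)) (dev (nn x d l) r t)
  have h12 : Δ / (2 * r) = Δ / (4 * r) + Δ / (4 * r) := by field_simp; ring
  linarith

/-- the secondary term is negligible -/
lemma li_small {x : ℝ} {B d l r : ℕ} (hx : 3 ≤ x) (hd : 1 ≤ d) (hdx : (d : ℝ) ≤ x)
    (hy1 : 1 ≤ Real.log x) (hΔ : x / (d * (Real.log x) ^ B) ≤ |err x d l|)
    (hr : 12 * (Real.log x) ^ (B + 1) ≤ (r : ℝ) - 1) :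
    li x / (d.totient * ((r : ℝ) - 1)) ≤ |err x d l| / 2 := by
  set y := Real.log x with hydef
  have hy0 : 0 < y := by linarith
  have hdpos : (0 : ℝ) < d := by exact_mod_cast hd
  have h1 := li_le (x := x) (by linarith)
  have h2 := le_totient d
  have h3 := card_primeFactors_le hd
  have h4 : Real.log d ≤ y := Real.log_le_log hdpos hdx
  have hφ : (0 : ℝ) < d.totient := by exact_mod_cast Nat.totient_pos.mpr hd
  have h5 : (d : ℝ) ≤ 3 * y * d.totient := by
    refine h2.trans ?_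
    apply mul_le_mul_of_nonneg_right _ hφ.le
    linarith
  have hr1' : 0 < (r : ℝ) - 1 := by
    have : 0 < 12 * y ^ (B + 1) := by positivity
    linarith
  rw [div_le_iff₀ (by positivity)]
  have h6 : x / (d * y ^ B) / 2 * (d.totient * ((r : ℝ) - 1)) ≤
      |err x d l| / 2 * (d.totient * ((r : ℝ) - 1)) := by gcongr
  refine le_trans ?_ h6
  refine h1.trans ?_
  have h7 : x / (d * y ^ B) / 2 * (d.totient * ((r : ℝ) - 1)) =
      (x * (d.totient * ((r : ℝ) - 1))) / (2 * (d * y ^ B)) := by field_simp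
  rw [h7, le_div_iff₀ (by positivity)]
  have h8 : 12 * (y * y ^ B) ≤ (r : ℝ) - 1 := by
    have : y * y ^ B = y ^ (B + 1) := by ring
    rw [this]; linarith
  have h9 : (d : ℝ) * (12 * (y * y ^ B)) ≤ 3 * y * d.totient * ((r : ℝ) - 1) :=
    mul_le_mul h5 h8 (by positivity) (by positivity)
  have h10 : 4 * (d : ℝ) * y ^ B ≤ d.totient * ((r : ℝ) - 1) := by
    have h11 : 3 * y * (4 * (d : ℝ) * y ^ B) ≤ 3 * y * (d.totient * ((r : ℝ) - 1)) := by
      calc 3 * y * (4 * (d : ℝ) * y ^ B) = (d : ℝ) * (12 * (y * y ^ B)) := by ring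
        _ ≤ _ := h9
        _ = _ := by ring
    exact le_of_mul_le_mul_left h11 (by positivity)
  calc 2 * x * (2 * (d * y ^ B)) = x * (4 * (d : ℝ) * y ^ B) := by ring
    _ ≤ x * (d.totient * ((r : ℝ) - 1)) := mul_le_mul_of_nonneg_left h10 (by linarith)

/-- lifts of the class l which are lost -/
noncomputable def lost (x : ℝ) (B d l r : ℕ) : Finset ℕ :=
  (range r).filter (fun t => l + d * t ∉ BB x (B + 1) (d * r))

lemma lost_sub {x : ℝ} {B d l r : ℕ} (hx : 3 ≤ x) (hy : 4 ≤ Real.log x) (hd : 1 ≤ d)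
    (hl : l ∈ BB x B d) (hr : r.Prime) :
    lost x B d l r ⊆ (range r).filter (fun t => |err x (d * r) (l + d * t)| < |err x d l| / (4 * r))
      ∪ (range r).filter (fun t => r ∣ l + d * t) := by
  intro t ht
  unfold lost at ht
  simp only [mem_filter, mem_range, mem_union] at ht ⊢
  obtain ⟨ht1, ht2⟩ := ht
  unfold BB at hl
  simp only [mem_filter, mem_Icc] at hl
  obtain ⟨⟨hl1, hl2⟩, hl3, hl4⟩ := hl
  by_contra hcon
  push Not at hcon
  obtain ⟨hc1, hc2⟩ := hcon
  have hc1' := hc1 ht1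
  have hc2' := hc2 ht1
  apply ht2
  unfold BB
  simp only [mem_filter, mem_Icc]
  have hdpos : (0 : ℝ) < d := by exact_mod_cast hd
  have hrpos : (0 : ℝ) < r := by exact_mod_cast hr.pos
  refine ⟨⟨by omega, ?_⟩, ?_, ?_⟩
  · have : d * (t + 1) ≤ d * r := Nat.mul_le_mul_left d ht1
    rw [mul_add, mul_one] at this
    omega
  · apply Nat.Coprime.mul_right
    · rw [Nat.coprime_add_mul_left_left]
      exact hl3
    · exact ((Nat.Prime.coprime_iff_not_dvd hr).mpr hc2').symm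
  · refine le_trans ?_ hc1'
    push_cast
    have h1 : x / (d * (Real.log x) ^ B) / (4 * r) ≤ |err x d l| / (4 * r) := by gcongr
    refine le_trans ?_ h1
    rw [div_div]
    apply div_le_div_of_nonneg_left (by linarith) (by positivity)
    rw [pow_succ]
    have h2 : 0 ≤ (d : ℝ) * r * Real.log x ^ B := by positivity
    calc (d : ℝ) * Real.log x ^ B * (4 * r) = (d : ℝ) * r * Real.log x ^ B * 4 := by ring
      _ ≤ (d : ℝ) * r * Real.log x ^ B * Real.log x := mul_le_mul_of_nonneg_left hy h2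
      _ = _ := by ring

lemma noncop_card {d l r : ℕ} (hr : r.Prime) (hrd : ¬ r ∣ d) :
    ((range r).filter (fun t => r ∣ l + d * t)).card ≤ 1 := by
  rw [Finset.card_le_one]
  intro a ha b hb
  simp only [mem_filter, mem_range] at ha hb
  wlog hab : a ≤ b with H
  · exact (H hr hrd b a hb ha (by omega)).symm
  have h1 : r ∣ (l + d * b) - (l + d * a) := Nat.dvd_sub hb.2 ha.2
  have h2 : (l + d * b) - (l + d * a) = d * (b - a) := by
    rw [Nat.mul_sub]; omega
  rw [h2] at h1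
  rcases hr.dvd_mul.mp h1 with h | h
  · exact absurd h hrd
  · have := Nat.eq_zero_of_dvd_of_lt h (by omega)
    omega

lemma lost_sum {x R : ℝ} {B d l : ℕ} (hx : 3 ≤ x) (hy : 4 ≤ Real.log x) (hd : 1 ≤ d)
    (hdx : (d : ℝ) ≤ x) (hR1 : 1 ≤ R) (hR : R ^ 3 ≤ x / d) (P : Finset ℕ)
    (hP : ∀ r ∈ P, r.Prime ∧ ¬ r ∣ d ∧ 12 * (Real.log x) ^ (B + 1) ≤ (r : ℝ) - 1 ∧ (r : ℝ) ≤ R)
    (hl : l ∈ BB x B d) :
    ∑ r ∈ P, ((lost x B d l r).card : ℝ) ≤ 129 * R * (Real.log x) ^ (2 * B) := by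
  set y := Real.log x with hydef
  have hy0 : 0 < y := by linarith
  have hdpos : (0 : ℝ) < d := by exact_mod_cast hd
  have hl' := hl
  unfold BB at hl'
  simp only [mem_filter, mem_Icc] at hl'
  obtain ⟨⟨hl1, hl2⟩, hl3, hl4⟩ := hl'
  set Δ := |err x d l| with hΔdef
  have hΔ : 0 < Δ := lt_of_lt_of_le (by positivity) hl4
  have hxd : 1 ≤ x / d := le_trans (one_le_pow₀ hR1) hR
  have hls := ls_app (l := l) hxd hR1 hR P (fun r hr => ⟨(hP r hr).1, (hP r hr).2.2.2⟩)
  set K : ℕ → ℕ := fun r =>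
    ((range r).filter (fun t => |err x (d * r) (l + d * t)| < Δ / (4 * r))).card with hK
  have h1 : ∀ r ∈ P, ((lost x B d l r).card : ℝ) ≤ (K r : ℝ) + 1 := by
    intro r hr
    have h2 := Finset.card_le_card (lost_sub hx hy hd hl (hP r hr).1)
    have h3 := h2.trans (Finset.card_union_le _ _)
    have h4 := noncop_card (l := l) (hP r hr).1 (hP r hr).2.1
    have h5 : (lost x B d l r).card ≤ K r + 1 := h3.trans (Nat.add_le_add_left h4 _)
    exact_mod_cast h5
  have h2 : ∀ r ∈ P, (K r : ℝ) * (Δ ^ 2 / (16 * R)) ≤ (r : ℝ) * V x d l r := by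
    intro r hr
    obtain ⟨hr1, hr2, hr3, hr4⟩ := hP r hr
    have hrpos : (0 : ℝ) < r := by exact_mod_cast hr1.pos
    have hli := li_small (l := l) hx hd hdx (by linarith) hl4 hr3
    have h3 : (K r : ℝ) * (Δ / (4 * r)) ^ 2 ≤ V x d l r := by
      calc (K r : ℝ) * (Δ / (4 * r)) ^ 2
          = ∑ _t ∈ (range r).filter (fun t => |err x (d * r) (l + d * t)| < Δ / (4 * r)),
              (Δ / (4 * r)) ^ 2 := by
            rw [Finset.sum_const, nsmul_eq_mul]
        _ ≤ ∑ t ∈ (range r).filter (fun t => |err x (d * r) (l + d * t)| < Δ / (4 * r)),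
              (dev (nn x d l) r t) ^ 2 := by
            apply Finset.sum_le_sum
            intro t ht
            simp only [mem_filter, mem_range] at ht
            have h5 := dev_lower (x := x) (by linarith) hd hl2 hr1
              ((Nat.Prime.coprime_iff_not_dvd hr1).mpr hr2).symm ht.1 ht.2 hli le_rfl
            have h6 : 0 ≤ Δ / (4 * r) := by positivity
            calc (Δ / (4 * r)) ^ 2 ≤ |dev (nn x d l) r t| ^ 2 := by gcongr
              _ = _ := sq_abs _
        _ ≤ V x d l r := by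
            unfold V
            exact Finset.sum_le_sum_of_subset_of_nonneg (Finset.filter_subset _ _)
              fun _ _ _ => sq_nonneg _
    have h4 : Δ ^ 2 / (16 * R) ≤ r * (Δ / (4 * r)) ^ 2 := by
      have : r * (Δ / (4 * r)) ^ 2 = Δ ^ 2 / (16 * r) := by field_simp; ring
      rw [this]
      gcongr
    calc (K r : ℝ) * (Δ ^ 2 / (16 * R)) ≤ (K r : ℝ) * (r * (Δ / (4 * r)) ^ 2) := by gcongr
      _ = r * ((K r : ℝ) * (Δ / (4 * r)) ^ 2) := by ring
      _ ≤ r * V x d l r := by gcongr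
  have h3 : (∑ r ∈ P, (K r : ℝ)) * (Δ ^ 2 / (16 * R)) ≤ 8 * (x / d) ^ 2 := by
    rw [Finset.sum_mul]
    exact (Finset.sum_le_sum h2).trans hls
  have h4 : x / d ≤ y ^ B * Δ := by
    have : x / d = y ^ B * (x / (d * y ^ B)) := by field_simp
    rw [this]
    gcongr
  have h5 : (x / d) ^ 2 ≤ y ^ (2 * B) * Δ ^ 2 := by
    calc (x / d) ^ 2 ≤ (y ^ B * Δ) ^ 2 := by gcongr
      _ = _ := by rw [mul_pow, ← pow_mul, mul_comm B 2]
  have h6 : ∑ r ∈ P, (K r : ℝ) ≤ 128 * R * y ^ (2 * B) := by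
    have h7 : (∑ r ∈ P, (K r : ℝ)) * (Δ ^ 2 / (16 * R)) ≤
        (128 * R * y ^ (2 * B)) * (Δ ^ 2 / (16 * R)) := by
      refine h3.trans ?_
      have : (128 * R * y ^ (2 * B)) * (Δ ^ 2 / (16 * R)) = 8 * (y ^ (2 * B) * Δ ^ 2) := by
        field_simp; ring
      rw [this]
      linarith
    exact le_of_mul_le_mul_right h7 (by positivity)
  have h7 : (P.card : ℝ) ≤ R := by
    have h8 : P ⊆ Finset.Icc 1 ⌊R⌋₊ := by
      intro r hr
      simp only [Finset.mem_Icc]
      exact ⟨(hP r hr).1.pos, Nat.le_floor (hP r hr).2.2.2⟩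
    have h9 := Finset.card_le_card h8
    simp at h9
    exact (by exact_mod_cast h9 : (P.card : ℝ) ≤ (⌊R⌋₊ : ℝ)).trans (Nat.floor_le (by linarith))
  have h8 : 1 ≤ y ^ (2 * B) := one_le_pow₀ (by linarith)
  calc ∑ r ∈ P, ((lost x B d l r).card : ℝ) ≤ ∑ r ∈ P, ((K r : ℝ) + 1) := Finset.sum_le_sum h1
    _ = ∑ r ∈ P, (K r : ℝ) + P.card := by rw [Finset.sum_add_distrib]; simp
    _ ≤ 128 * R * y ^ (2 * B) + R * y ^ (2 * B) := by nlinarith
    _ = _ := by ring

/-- primes in (R / log x, R] not dividing d -/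
noncomputable def PR (x R : ℝ) (d : ℕ) : Finset ℕ :=
  (Icc 1 ⌊R⌋₊).filter (fun r => r.Prime ∧ R / Real.log x < (r : ℝ) ∧ ¬ r ∣ d)

lemma PR_card {x R : ℝ} {d : ℕ} (hy : 4 ≤ Real.log x) (hR : 256 ≤ R)
    (hlR : 4 * Real.log R ≤ Real.log x) (hd : 1 ≤ d) (hdx : (d : ℝ) ≤ x) :
    R / Real.log x - 2 * Real.log x ≤ ((PR x R d).card : ℝ) := by
  set y := Real.log x with hydef
  have hy0 : 0 < y := by linarith
  have hlogR0 : 0 < Real.log R := Real.log_pos (by linarith)
  have h1 := Chebyshev.pi_ge' (x := R) (by linarith)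
  have h2 : Real.log (R + 2) ≤ (R + 2) / 16 - 1 + 4 * Real.log 2 := by
    have h3 := Real.log_le_sub_one_of_pos (x := (R + 2) / 16) (by positivity)
    rw [Real.log_div (by positivity) (by norm_num)] at h3
    have h4 : Real.log 16 = 4 * Real.log 2 := by
      rw [show (16 : ℝ) = 2 ^ 4 by norm_num, Real.log_pow]; norm_num
    linarith
  have hl1 := Real.log_two_gt_d9
  have hl2 := Real.log_two_lt_d9
  have h5 : R / 2 ≤ (R - 1) * Real.log 2 - Real.log (R + 2) := by nlinarith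
  have h6 : 2 * R / y ≤ (Nat.primeCounting ⌊R⌋₊ : ℝ) := by
    refine le_trans ?_ h1
    rw [div_le_div_iff₀ hy0 hlogR0]
    have h7 : R / 2 * (4 * Real.log R) ≤ ((R - 1) * Real.log 2 - Real.log (R + 2)) * y :=
      mul_le_mul h5 hlR (by positivity) (by linarith)
    linarith
  have h8 : ((Icc 1 ⌊R⌋₊).filter Nat.Prime) ⊆ PR x R d ∪ (Icc 1 ⌊R / y⌋₊ ∪ d.primeFactors) := by
    intro p hp
    simp only [mem_filter, mem_Icc] at hp
    obtain ⟨⟨hp1, hp2⟩, hpp⟩ := hp
    simp only [mem_union, mem_Icc, PR, mem_filter]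
    by_cases hdvd : p ∣ d
    · right; right
      exact Nat.mem_primeFactors.mpr ⟨hpp, hdvd, by omega⟩
    · by_cases hT' : R / Real.log x < (p : ℝ)
      · left; exact ⟨⟨hp1, hp2⟩, hpp, hT', hdvd⟩
      · right; left
        exact ⟨hp1, Nat.le_floor (not_lt.mp hT')⟩
  have h9 := (Finset.card_le_card h8).trans ((Finset.card_union_le _ _).trans
    (Nat.add_le_add_left (Finset.card_union_le _ _) _))
  rw [card_primes] at h9
  have h10 : (Nat.primeCounting ⌊R⌋₊ : ℝ) ≤
      ((PR x R d).card : ℝ) + (⌊R / y⌋₊ + d.primeFactors.card) := by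
    have : (Icc 1 ⌊R / y⌋₊).card = ⌊R / y⌋₊ := by simp
    rw [this] at h9
    exact_mod_cast h9
  have h11 : ((⌊R / y⌋₊ : ℕ) : ℝ) ≤ R / y := Nat.floor_le (by positivity)
  have h12 := card_primeFactors_le hd
  have h13 : Real.log d ≤ y := Real.log_le_log (by exact_mod_cast hd) hdx
  have h14 : 2 * R / y = R / y + R / y := by ring
  linarith

lemma maxErr_trivial {x : ℝ} {d : ℕ} (hx : 3 ≤ x) (hy : 1 ≤ Real.log x) (hd : 1 ≤ d)
    (hdx : (d : ℝ) ≤ x) : maxErr x d ≤ 6 * x * Real.log x / d := by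
  set y := Real.log x with hydef
  have hy0 : 0 < y := by linarith
  have hdpos : (0 : ℝ) < d := by exact_mod_cast hd
  have hφ : (0 : ℝ) < d.totient := by exact_mod_cast Nat.totient_pos.mpr hd
  obtain ⟨l, h1, h2, h3, h4⟩ := exists_maxErr x hd
  rw [h4]
  have h5 : (d : ℝ) ≤ 3 * y * d.totient := by
    have h2 := le_totient d
    have h3 := card_primeFactors_le hd
    have h4 : Real.log d ≤ y := Real.log_le_log hdpos hdx
    refine h2.trans ?_
    apply mul_le_mul_of_nonneg_right _ hφ.le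
    linarith
  have h6 : (primeCount x d l : ℝ) ≤ 2 * (x / d) := by
    rw [← card_nn (by linarith) hd h2]
    have h7 : ((nn x d l).card : ℝ) ≤ ⌊x / d⌋₊ + 1 := by
      unfold nn
      have := Finset.card_filter_le (range (⌊x / d⌋₊ + 1))
        (fun n => (l + d * n).Prime ∧ l + d * n ≤ ⌊x⌋₊)
      rw [card_range] at this
      exact_mod_cast this
    have h8 : ((⌊x / d⌋₊ : ℕ) : ℝ) ≤ x / d := Nat.floor_le (by positivity)
    have h9 : 1 ≤ x / d := by rw [le_div_iff₀ hdpos]; linarith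
    linarith
  have h7 : li x / d.totient ≤ 6 * x * y / d := by
    rw [div_le_div_iff₀ hφ hdpos]
    have h8 := li_le (x := x) (by linarith)
    have h9 := li_nonneg (x := x) (by linarith)
    calc li x * d ≤ (2 * x) * (3 * y * d.totient) := mul_le_mul h8 h5 hdpos.le (by linarith)
      _ = _ := by ring
  have h8 : 2 * (x / d) ≤ 6 * x * y / d := by
    rw [← mul_div_assoc]
    apply div_le_div_of_nonneg_right _ hdpos.le
    nlinarith
  have h9 : 0 ≤ li x / d.totient := div_nonneg (li_nonneg (by linarith)) hφ.le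
  have h10 : (0 : ℝ) ≤ primeCount x d l := by positivity
  unfold err
  rw [abs_le]
  constructor <;> linarith

/-- bad moduli at x -/
noncomputable def DD (x α : ℝ) (B : ℕ) : Finset ℕ :=
  (Icc 1 ⌊x ^ α⌋₊).filter (fun d => Squarefree d ∧ x / (d * (Real.log x) ^ B) ≤ maxErr x d)

lemma admissible_of_eventually {α : ℝ} (hα1 : α ≤ 1)
    (h : ∀ U : ℝ, 0 < U → ∃ C : ℝ, ∀ᶠ x : ℝ in Filter.atTop,
      SS α x ≤ C * (x / (Real.log x) ^ U)) : Admissible α := by
  intro U hU
  obtain ⟨C, hC⟩ := h U hU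
  obtain ⟨x0, hx0⟩ := Filter.eventually_atTop.mp hC
  set Y := max x0 3 with hY
  have hY3 : 3 ≤ Y := le_max_right _ _
  have hlogY : 0 < Real.log Y := Real.log_pos (by linarith)
  refine ⟨max C (2 * Y * (Real.log Y) ^ U), fun x hx => ?_⟩
  have hlogx : 0 < Real.log x := Real.log_pos (by linarith)
  have hpos : 0 < x / (Real.log x) ^ U := by positivity
  change SS α x ≤ _
  rcases le_total Y x with hxY | hxY
  · refine (hx0 x ((le_max_left _ _).trans hxY)).trans ?_
    exact mul_le_mul_of_nonneg_right (le_max_left _ _) hpos.le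
  · refine (SS_le hα1 hx).trans ?_
    refine le_trans ?_ (mul_le_mul_of_nonneg_right (le_max_right _ _) hpos.le)
    have h4 : (Real.log x) ^ U ≤ (Real.log Y) ^ U := by
      apply Real.rpow_le_rpow hlogx.le _ hU.le
      exact Real.log_le_log (by linarith) hxY
    have h6 : 0 < (Real.log x) ^ U := by positivity
    rw [mul_div_assoc', le_div_iff₀ h6]
    have h7 : 0 ≤ (Real.log Y) ^ U := by positivity
    calc 2 * x * x * (Real.log x) ^ U ≤ 2 * Y * x * (Real.log Y) ^ U := by gcongr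
      _ = _ := by ring


lemma harm_le {x α : ℝ} (hα : 0 < α) (hα1 : α ≤ 1) (hx : 3 ≤ x) :
    ∑ d ∈ Icc 1 ⌊x ^ α⌋₊, ((d : ℝ))⁻¹ ≤ 1 + Real.log x := by
  have hx0 : 0 < x := by linarith
  have hx1 : 1 ≤ x := by linarith
  have h2 : ∑ d ∈ Icc 1 ⌊x ^ α⌋₊, ((d : ℝ))⁻¹ ≤ 1 + Real.log ⌊x ^ α⌋₊ := by
    have := harmonic_le_one_add_log ⌊x ^ α⌋₊
    rw [harmonic_eq_sum_Icc] at this
    push_cast at this
    exact this
  have h3' : Real.log ⌊x ^ α⌋₊ ≤ Real.log x := by
    have h4 : 1 ≤ ⌊x ^ α⌋₊ := by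
      apply Nat.le_floor
      push_cast
      exact Real.one_le_rpow hx1 hα.le
    apply Real.log_le_log (by exact_mod_cast h4)
    refine (Nat.floor_le (by positivity)).trans ?_
    calc x ^ α ≤ x ^ (1 : ℝ) := Real.rpow_le_rpow_of_exponent_le hx1 hα1
      _ = x := Real.rpow_one x
  linarith


/-- good reduced classes mod m -/
noncomputable def GG (x : ℝ) (b m : ℕ) : Finset ℕ :=
  (Icc 1 m).filter (fun l => l.Coprime m ∧ |err x m l| < x / (m * (Real.log x) ^ b))

lemma goodLift_sub {x : ℝ} {b d l r : ℕ}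
    (hl : l ∈ GG x (b + 1) d) (hr : r.Prime) :
    (range r).filter (fun t => l + d * t ∉ GG x b (d * r)) ⊆
      (range r).filter (fun t => x / ((d * r : ℕ) * (Real.log x) ^ b) ≤ |err x (d * r) (l + d * t)|)
      ∪ (range r).filter (fun t => r ∣ l + d * t) := by
  intro t ht
  simp only [mem_filter, mem_range, mem_union] at ht ⊢
  obtain ⟨ht1, ht2⟩ := ht
  unfold GG at hl
  simp only [mem_filter, mem_Icc] at hl
  obtain ⟨⟨hl1, hl2⟩, hl3, hl4⟩ := hl
  by_contra hcon
  push Not at hcon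
  obtain ⟨hc1, hc2⟩ := hcon
  have hc1' := hc1 ht1
  have hc2' := hc2 ht1
  apply ht2
  unfold GG
  simp only [mem_filter, mem_Icc]
  refine ⟨⟨by omega, ?_⟩, ?_, hc1'⟩
  · have : d * (t + 1) ≤ d * r := Nat.mul_le_mul_left d ht1
    rw [mul_add, mul_one] at this
    omega
  · apply Nat.Coprime.mul_right
    · rw [Nat.coprime_add_mul_left_left]
      exact hl3
    · exact ((Nat.Prime.coprime_iff_not_dvd hr).mpr hc2').symm

lemma dev_lower_good {x : ℝ} {b d l r t : ℕ} (hx : 3 ≤ x) (hy : 4 ≤ Real.log x) (hd : 1 ≤ d)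
    (hdx : (d : ℝ) ≤ x) (hl : l ∈ GG x (b + 1) d)
    (hr : r.Prime) (hrd : ¬ r ∣ d) (ht : t < r)
    (hr24 : 24 * (Real.log x) ^ (b + 1) ≤ (r : ℝ) - 1)
    (hte : x / ((d * r : ℕ) * (Real.log x) ^ b) ≤ |err x (d * r) (l + d * t)|) :
    x / (d * (Real.log x) ^ b) / (2 * r) ≤ |dev (nn x d l) r t| := by
  set y := Real.log x with hydef
  have hy0 : 0 < y := by linarith
  unfold GG at hl
  simp only [mem_filter, mem_Icc] at hl
  obtain ⟨⟨hl1, hl2⟩, hl3, hl4⟩ := hl
  have hdpos : (0 : ℝ) < d := by exact_mod_cast hd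
  have hrpos : (0 : ℝ) < r := by exact_mod_cast hr.pos
  have hφ : (0 : ℝ) < d.totient := by exact_mod_cast Nat.totient_pos.mpr hd
  have hr1 : (0 : ℝ) < (r : ℝ) - 1 := by
    have : 0 < 24 * y ^ (b + 1) := by positivity
    linarith
  set Θ := x / (d * y ^ b) with hΘ
  have hΘ0 : 0 < Θ := by positivity
  have hcop : d.Coprime r := ((Nat.Prime.coprime_iff_not_dvd hr).mpr hrd).symm
  have hc : err x (d * r) (l + d * t) = dev (nn x d l) r t + err x d l / r -
      (li x / (d.totient * ((r : ℝ) - 1))) / r := by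
    unfold dev err
    rw [cnt_nn (by linarith) hd hl2 ht, card_nn (by linarith) hd hl2,
      Nat.totient_mul hcop, Nat.totient_prime hr]
    push_cast [Nat.cast_sub hr.one_le]
    field_simp
    ring
  have h1 : Θ / r ≤ |err x (d * r) (l + d * t)| := by
    refine le_trans (le_of_eq ?_) hte
    rw [hΘ]
    push_cast
    field_simp
  have h2 : |err x d l / r| ≤ Θ / 4 / r := by
    rw [abs_div, abs_of_pos hrpos]
    apply div_le_div_of_nonneg_right _ hrpos.le
    refine hl4.le.trans ?_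
    rw [hΘ, div_div]
    apply div_le_div_of_nonneg_left (by linarith) (by positivity)
    rw [pow_succ]
    have : 0 < (d : ℝ) * y ^ b := by positivity
    nlinarith
  have h3 : |(li x / (d.totient * ((r : ℝ) - 1))) / r| ≤ Θ / 4 / r := by
    rw [abs_div, abs_of_pos hrpos]
    apply div_le_div_of_nonneg_right _ hrpos.le
    rw [abs_of_nonneg (div_nonneg (li_nonneg (by linarith)) (by positivity)),
      div_le_iff₀ (by positivity)]
    have h5 := li_le (x := x) (by linarith)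
    have h6 : (d : ℝ) ≤ 3 * y * d.totient := by
      have h2 := le_totient d
      have h3 := card_primeFactors_le hd
      have h4 : Real.log d ≤ y := Real.log_le_log hdpos hdx
      refine h2.trans ?_
      apply mul_le_mul_of_nonneg_right _ hφ.le
      linarith
    refine h5.trans ?_
    have h7 : Θ / 4 * (d.totient * ((r : ℝ) - 1)) = (x * (d.totient * ((r : ℝ) - 1))) /
        (4 * (d * y ^ b)) := by
      rw [hΘ]; field_simp
    rw [h7, le_div_iff₀ (by positivity)]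
    have h8 : 8 * ((d : ℝ) * y ^ b) ≤ d.totient * ((r : ℝ) - 1) := by
      have h9 : 24 * (y * y ^ b) ≤ (r : ℝ) - 1 := by
        have : y * y ^ b = y ^ (b + 1) := by ring
        rw [this]; linarith
      have h10 : (d : ℝ) * (24 * (y * y ^ b)) ≤ 3 * y * d.totient * ((r : ℝ) - 1) :=
        mul_le_mul h6 h9 (by positivity) (by positivity)
      have h11 : 3 * y * (8 * ((d : ℝ) * y ^ b)) ≤ 3 * y * (d.totient * ((r : ℝ) - 1)) := by
        calc 3 * y * (8 * ((d : ℝ) * y ^ b)) = (d : ℝ) * (24 * (y * y ^ b)) := by ring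
          _ ≤ _ := h10
          _ = _ := by ring
      exact le_of_mul_le_mul_left h11 (by positivity)
    calc 2 * x * (4 * ((d : ℝ) * y ^ b)) = x * (8 * ((d : ℝ) * y ^ b)) := by ring
      _ ≤ x * (d.totient * ((r : ℝ) - 1)) := mul_le_mul_of_nonneg_left h8 (by linarith)
  rw [hc] at h1
  have h4 := abs_sub (dev (nn x d l) r t + err x d l / r) ((li x / (d.totient * ((r : ℝ) - 1))) / r)
  have h5 := abs_add_le (dev (nn x d l) r t) (err x d l / r)
  have h6 : Θ / (2 * r) = Θ / r - Θ / 4 / r - Θ / 4 / r := by field_simp; ring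
  rw [h6]
  linarith

lemma goodLift_sum {x R : ℝ} {b d l : ℕ} (hx : 3 ≤ x) (hy : 4 ≤ Real.log x) (hd : 1 ≤ d)
    (hdx : (d : ℝ) ≤ x) (hR1 : 1 ≤ R) (hR : R ^ 3 ≤ x / d) (P : Finset ℕ)
    (hP : ∀ r ∈ P, r.Prime ∧ ¬ r ∣ d ∧ 24 * (Real.log x) ^ (b + 1) ≤ (r : ℝ) - 1 ∧ (r : ℝ) ≤ R)
    (hl : l ∈ GG x (b + 1) d) :
    ∑ r ∈ P, (((range r).filter (fun t => l + d * t ∉ GG x b (d * r))).card : ℝ) ≤
      33 * R * (Real.log x) ^ (2 * b) := by
  set y := Real.log x with hydef
  have hy0 : 0 < y := by linarith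
  have hdpos : (0 : ℝ) < d := by exact_mod_cast hd
  set Θ := x / (d * y ^ b) with hΘ
  have hΘ0 : 0 < Θ := by positivity
  have hxd : 1 ≤ x / d := le_trans (one_le_pow₀ hR1) hR
  have hls := ls_app (l := l) hxd hR1 hR P (fun r hr => ⟨(hP r hr).1, (hP r hr).2.2.2⟩)
  set K : ℕ → ℕ := fun r => ((range r).filter (fun t => x / ((d * r : ℕ) * y ^ b) ≤
    |err x (d * r) (l + d * t)|)).card with hK
  have h1 : ∀ r ∈ P, (((range r).filter (fun t => l + d * t ∉ GG x b (d * r))).card : ℝ) ≤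
      (K r : ℝ) + 1 := by
    intro r hr
    have h2 := Finset.card_le_card (goodLift_sub hl (hP r hr).1)
    have h3 := h2.trans (Finset.card_union_le _ _)
    have h4 := noncop_card (l := l) (hP r hr).1 (hP r hr).2.1
    have h5 : ((range r).filter (fun t => l + d * t ∉ GG x b (d * r))).card ≤ K r + 1 :=
      h3.trans (Nat.add_le_add_left h4 _)
    exact_mod_cast h5
  have h2 : ∀ r ∈ P, (K r : ℝ) * (Θ ^ 2 / (4 * R)) ≤ (r : ℝ) * V x d l r := by
    intro r hr
    obtain ⟨hr1, hr2, hr3, hr4⟩ := hP r hr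
    have hrpos : (0 : ℝ) < r := by exact_mod_cast hr1.pos
    have h3 : (K r : ℝ) * (Θ / (2 * r)) ^ 2 ≤ V x d l r := by
      calc (K r : ℝ) * (Θ / (2 * r)) ^ 2
          = ∑ _t ∈ (range r).filter (fun t => x / ((d * r : ℕ) * y ^ b) ≤
              |err x (d * r) (l + d * t)|), (Θ / (2 * r)) ^ 2 := by
            rw [Finset.sum_const, nsmul_eq_mul]
        _ ≤ ∑ t ∈ (range r).filter (fun t => x / ((d * r : ℕ) * y ^ b) ≤
              |err x (d * r) (l + d * t)|), (dev (nn x d l) r t) ^ 2 := by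
            apply Finset.sum_le_sum
            intro t ht
            simp only [mem_filter, mem_range] at ht
            have h5 := dev_lower_good hx hy hd hdx hl hr1 hr2 ht.1 hr3 ht.2
            have h6 : 0 ≤ Θ / (2 * r) := by positivity
            calc (Θ / (2 * r)) ^ 2 ≤ |dev (nn x d l) r t| ^ 2 := by gcongr
              _ = _ := sq_abs _
        _ ≤ V x d l r := by
            unfold V
            exact Finset.sum_le_sum_of_subset_of_nonneg (Finset.filter_subset _ _)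
              fun _ _ _ => sq_nonneg _
    have h4 : Θ ^ 2 / (4 * R) ≤ r * (Θ / (2 * r)) ^ 2 := by
      have : r * (Θ / (2 * r)) ^ 2 = Θ ^ 2 / (4 * r) := by field_simp; ring
      rw [this]
      gcongr
    calc (K r : ℝ) * (Θ ^ 2 / (4 * R)) ≤ (K r : ℝ) * (r * (Θ / (2 * r)) ^ 2) := by gcongr
      _ = r * ((K r : ℝ) * (Θ / (2 * r)) ^ 2) := by ring
      _ ≤ r * V x d l r := by gcongr
  have h3 : (∑ r ∈ P, (K r : ℝ)) * (Θ ^ 2 / (4 * R)) ≤ 8 * (x / d) ^ 2 := by
    rw [Finset.sum_mul]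
    exact (Finset.sum_le_sum h2).trans hls
  have h5 : (x / d) ^ 2 = y ^ (2 * b) * Θ ^ 2 := by
    have : x / d = y ^ b * Θ := by rw [hΘ]; field_simp
    rw [this, mul_pow, ← pow_mul, mul_comm b 2]
  have h6 : ∑ r ∈ P, (K r : ℝ) ≤ 32 * R * y ^ (2 * b) := by
    have h7 : (∑ r ∈ P, (K r : ℝ)) * (Θ ^ 2 / (4 * R)) ≤
        (32 * R * y ^ (2 * b)) * (Θ ^ 2 / (4 * R)) := by
      refine h3.trans ?_
      have : (32 * R * y ^ (2 * b)) * (Θ ^ 2 / (4 * R)) = 8 * (y ^ (2 * b) * Θ ^ 2) := by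
        field_simp; ring
      rw [this, h5]
    exact le_of_mul_le_mul_right h7 (by positivity)
  have h7 : (P.card : ℝ) ≤ R := by
    have h8 : P ⊆ Finset.Icc 1 ⌊R⌋₊ := by
      intro r hr
      simp only [Finset.mem_Icc]
      exact ⟨(hP r hr).1.pos, Nat.le_floor (hP r hr).2.2.2⟩
    have h9 := Finset.card_le_card h8
    simp at h9
    exact (by exact_mod_cast h9 : (P.card : ℝ) ≤ (⌊R⌋₊ : ℝ)).trans (Nat.floor_le (by linarith))
  have h8 : 1 ≤ y ^ (2 * b) := one_le_pow₀ (by linarith)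
  calc ∑ r ∈ P, (((range r).filter (fun t => l + d * t ∉ GG x b (d * r))).card : ℝ)
      ≤ ∑ r ∈ P, ((K r : ℝ) + 1) := Finset.sum_le_sum h1
    _ = ∑ r ∈ P, (K r : ℝ) + P.card := by rw [Finset.sum_add_distrib]; simp
    _ ≤ 32 * R * y ^ (2 * b) + R * y ^ (2 * b) := by nlinarith
    _ = _ := by ring

/-- the whole sum from the sum of 1/d over the bad moduli -/
lemma SS_le_DD {x α : ℝ} {B : ℕ} (hα : 0 < α) (hα1 : α ≤ 1) (hx : 3 ≤ x) (hy1 : 1 ≤ Real.log x) :
    SS α x ≤ 2 * (x * Real.log x / (Real.log x) ^ B) +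
      6 * x * Real.log x * ∑ d ∈ DD x α B, ((d : ℝ))⁻¹ := by
  set y := Real.log x with hydef
  have hx0 : 0 < x := by linarith
  have hx1 : 1 ≤ x := by linarith
  have hy0 : 0 < y := by linarith
  have hαx : x ^ α ≤ x := by
    calc x ^ α ≤ x ^ (1 : ℝ) := Real.rpow_le_rpow_of_exponent_le hx1 hα1
      _ = x := Real.rpow_one x
  have hbadsum : ∑ d ∈ DD x α B, maxErr x d ≤ 6 * x * y * ∑ d ∈ DD x α B, ((d : ℝ))⁻¹ := by
    rw [Finset.mul_sum]
    apply Finset.sum_le_sum
    intro d hd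
    unfold DD at hd
    rw [Finset.mem_filter, Finset.mem_Icc] at hd
    have h2' : (d : ℝ) ≤ x ^ α :=
      (Nat.cast_le.mpr hd.1.2).trans (Nat.floor_le (by positivity))
    exact maxErr_trivial hx hy1 hd.1.1 (h2'.trans hαx)
  have hsplit : SS α x ≤ ∑ d ∈ DD x α B, maxErr x d + ∑ d ∈ Icc 1 ⌊x ^ α⌋₊, x / (d * y ^ B) := by
    unfold SS
    have h1 : ∑ d ∈ (Icc 1 ⌊x ^ α⌋₊).filter Squarefree, maxErr x d =
        ∑ d ∈ ((Icc 1 ⌊x ^ α⌋₊).filter Squarefree).filter (fun d => x / (d * y ^ B) ≤ maxErr x d),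
          maxErr x d +
        ∑ d ∈ ((Icc 1 ⌊x ^ α⌋₊).filter Squarefree).filter (fun d => ¬ x / (d * y ^ B) ≤ maxErr x d),
          maxErr x d := (Finset.sum_filter_add_sum_filter_not _ _ _).symm
    rw [h1, Finset.filter_filter]
    apply add_le_add le_rfl
    calc ∑ d ∈ ((Icc 1 ⌊x ^ α⌋₊).filter Squarefree).filter (fun d => ¬ x / (d * y ^ B) ≤ maxErr x d),
          maxErr x d
        ≤ ∑ d ∈ ((Icc 1 ⌊x ^ α⌋₊).filter Squarefree).filter
            (fun d => ¬ x / (d * y ^ B) ≤ maxErr x d), x / (d * y ^ B) := by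
          apply Finset.sum_le_sum
          intro d hd
          rw [Finset.mem_filter] at hd
          exact (not_le.mp hd.2).le
      _ ≤ _ := by
          apply Finset.sum_le_sum_of_subset_of_nonneg
          · exact (Finset.filter_subset _ _).trans (Finset.filter_subset _ _)
          · intro d _ _; positivity
  have hharm : ∑ d ∈ Icc 1 ⌊x ^ α⌋₊, x / (d * y ^ B) ≤ 2 * (x * y / y ^ B) := by
    have h1 : ∑ d ∈ Icc 1 ⌊x ^ α⌋₊, x / (d * y ^ B) =
        (x / y ^ B) * ∑ d ∈ Icc 1 ⌊x ^ α⌋₊, ((d : ℝ))⁻¹ := by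
      rw [Finset.mul_sum]
      exact Finset.sum_congr rfl fun d _ => by field_simp
    have h2 := harm_le (x := x) (α := α) hα hα1 hx
    rw [h1]
    calc (x / y ^ B) * ∑ d ∈ Icc 1 ⌊x ^ α⌋₊, ((d : ℝ))⁻¹ ≤ (x / y ^ B) * (2 * y) := by
          apply mul_le_mul_of_nonneg_left _ (by positivity)
          linarith
      _ = _ := by ring
  linarith

lemma all_of_eventually {α U C : ℝ} (hα : 0 < α) (hα1 : α ≤ 1) (hU : 0 < U) (E : ℝ → Finset ℕ)
    (hE : ∀ x, E x ⊆ Icc 1 ⌊x ^ α⌋₊)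
    (h : ∀ᶠ x : ℝ in Filter.atTop, ∑ d ∈ E x, ((d : ℝ))⁻¹ ≤ C / (Real.log x) ^ U) :
    ∃ C' : ℝ, ∀ x : ℝ, 3 ≤ x → ∑ d ∈ E x, ((d : ℝ))⁻¹ ≤ C' / (Real.log x) ^ U := by
  obtain ⟨x0, hx0⟩ := Filter.eventually_atTop.mp h
  set Y := max x0 3 with hY
  have hY3 : 3 ≤ Y := le_max_right _ _
  have hlogY : 0 < Real.log Y := Real.log_pos (by linarith)
  refine ⟨max C ((1 + Real.log Y) * (Real.log Y) ^ U), fun x hx => ?_⟩
  have hlogx : 0 < Real.log x := Real.log_pos (by linarith)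
  have hpos : 0 < (Real.log x) ^ U := by positivity
  rcases le_total Y x with hxY | hxY
  · refine (hx0 x ((le_max_left _ _).trans hxY)).trans ?_
    exact div_le_div_of_nonneg_right (le_max_left _ _) hpos.le
  · have h1 : ∑ d ∈ E x, ((d : ℝ))⁻¹ ≤ ∑ d ∈ Icc 1 ⌊x ^ α⌋₊, ((d : ℝ))⁻¹ :=
      Finset.sum_le_sum_of_subset_of_nonneg (hE x) fun _ _ _ => by positivity
    have h2 := harm_le (x := x) (α := α) hα hα1 hx
    have h3 : Real.log x ≤ Real.log Y := Real.log_le_log (by linarith) hxY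
    rw [le_div_iff₀ hpos]
    have h4 : (Real.log x) ^ U ≤ (Real.log Y) ^ U := Real.rpow_le_rpow hlogx.le h3 hU.le
    refine le_trans ?_ (le_max_right _ _)
    exact mul_le_mul (by linarith) h4 hpos.le (by positivity)

end Pool.Agent.Lib.EH
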