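import Pool.Agent.Lib.EH.OneStep

/-! The equivalence. -/

namespace Pool.Agent.Lib.EH

open Finset Pool.Agent.Results.MP_00e23e_nt

lemma progression_card {m r a : ℕ} (hm : 1 ≤ m) (hsq : Squarefree m) (hr : r.Prime) (hrm : r ∣ m)
    (ha : a.Coprime (m / r)) :
    r - 1 ≤ ((Icc 1 m).filter (fun l => l.Coprime m ∧ l ≡ a [MOD m / r])).card := by
  obtain ⟨d, hd⟩ := hrm
  have hmr : m / r = d := by rw [hd]; exact Nat.mul_div_cancel_left _ hr.pos
  rw [hmr] at ha ⊢
  have hcop : r.Coprime d := by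
    rw [hd] at hsq
    exact Nat.coprime_of_squarefree_mul hsq
  have hd0 : 0 < d := by
    rcases Nat.eq_zero_or_pos d with h | h
    · rw [h, mul_zero] at hd; omega
    · exact h
  have h1 : ((Icc 1 (r - 1)).card) ≤
      ((Icc 1 m).filter (fun l => l.Coprime m ∧ l ≡ a [MOD d])).card := by
    apply Finset.card_le_card_of_injOn (fun s => (Nat.chineseRemainder hcop s a : ℕ))
    · intro s hs
      simp only [coe_Icc, Set.mem_Icc] at hs
      have h2 := (Nat.chineseRemainder hcop s a).2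
      have h3 := Nat.chineseRemainder_lt_mul hcop s a hr.pos.ne' hd0.ne'
      set k : ℕ := (Nat.chineseRemainder hcop s a : ℕ) with hk
      have hrs : ¬ r ∣ s := fun h => by
        have := Nat.le_of_dvd (by omega) h
        omega
      have hrk : ¬ r ∣ k := fun h => hrs ((h2.1.dvd_iff (dvd_refl r)).mp h)
      have hk0 : k ≠ 0 := fun h => hrk (by rw [h]; exact dvd_zero r)
      simp only [coe_filter, mem_Icc, Set.mem_ofPred_eq]
      refine ⟨⟨by omega, by rw [hd]; exact h3.le⟩, ?_, h2.2⟩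
      rw [hd]
      apply Nat.Coprime.mul_right
      · exact ((Nat.Prime.coprime_iff_not_dvd hr).mpr hrk).symm
      · have : Nat.gcd k d = Nat.gcd a d := h2.2.gcd_eq
        unfold Nat.Coprime
        rw [this]; exact ha
    · intro s hs t ht hst
      simp only [coe_Icc, Set.mem_Icc] at hs ht
      have h2 := (Nat.chineseRemainder hcop s a).2.1
      have h3 := (Nat.chineseRemainder hcop t a).2.1
      simp only at hst
      rw [hst] at h2
      have h4 : s ≡ t [MOD r] := h2.symm.trans h3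
      unfold Nat.ModEq at h4
      rwa [Nat.mod_eq_of_lt (by have := hr.two_le; omega),
        Nat.mod_eq_of_lt (by have := hr.two_le; omega)] at h4
  simpa using h1

theorem few_of_admissible {β : ℝ} (h : Admissible β) (ζ : ℝ) : FewGood β ζ := by
  classical
  intro r a U hU
  obtain ⟨C, hC⟩ := h U hU
  refine ⟨C, fun x hx => ⟨x, le_rfl, ?_, fun m => if Squarefree m then maxErr x m else 0,
    ?_, ?_, ?_⟩⟩
  · have h1 : 0 < Real.log x := Real.log_pos (by linarith)
    have : 0 ≤ x / (Real.log x) ^ U := by positivity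
    linarith
  · intro m
    dsimp only
    split_ifs
    · exact maxErr_nonneg x m
    · exact le_rfl
  · rw [← Finset.sum_filter]
    exact hC x hx
  · intro m hm hsq hr hrm _ ha
    rw [Finset.mem_Icc] at hm
    refine (min_le_right _ _).trans ?_
    have h1 := progression_card hm.1 hsq hr hrm ha
    have h2 : goodCount x m (r m) (a m) (if Squarefree m then maxErr x m else 0) =
        ((Icc 1 m).filter (fun l => l.Coprime m ∧ l ≡ a m [MOD m / r m])).card := by
      unfold goodCount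
      rw [if_pos hsq]
      congr 1
      apply Finset.filter_congr
      intro l hl
      rw [Finset.mem_Icc] at hl
      constructor
      · rintro ⟨g1, g2, _⟩; exact ⟨g1, g2⟩
      · rintro ⟨g1, g2⟩; exact ⟨g1, g2, le_maxErr x m l hl.1 hl.2 g1⟩
    rw [h2]
    have h3 : ((r m : ℕ) : ℝ) - 1 = ((r m - 1 : ℕ) : ℝ) := by
      rw [Nat.cast_sub hr.one_le]; simp
    rw [h3]
    exact_mod_cast h1

lemma SS_le {α x : ℝ} (hα : α ≤ 1) (hx : 3 ≤ x) : SS α x ≤ 2 * x * x := by
  unfold SS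
  have hx1 : 1 ≤ x := by linarith
  calc ∑ d ∈ (Icc 1 ⌊x ^ α⌋₊).filter Squarefree, maxErr x d
      ≤ ∑ _d ∈ (Icc 1 ⌊x ^ α⌋₊).filter Squarefree, 2 * x := by
        apply Finset.sum_le_sum
        intro d hd
        rw [Finset.mem_filter, Finset.mem_Icc] at hd
        exact maxErr_le (by linarith) d hd.1.1
    _ = (((Icc 1 ⌊x ^ α⌋₊).filter Squarefree).card : ℝ) * (2 * x) := by
        rw [Finset.sum_const, nsmul_eq_mul]
    _ ≤ x * (2 * x) := by
        apply mul_le_mul_of_nonneg_right _ (by linarith)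
        have h1 : ((Icc 1 ⌊x ^ α⌋₊).filter Squarefree).card ≤ ⌊x ^ α⌋₊ := by
          refine (Finset.card_filter_le _ _).trans ?_
          simp
        calc (((Icc 1 ⌊x ^ α⌋₊).filter Squarefree).card : ℝ) ≤ (⌊x ^ α⌋₊ : ℝ) := by exact_mod_cast h1
          _ ≤ x ^ α := Nat.floor_le (by positivity)
          _ ≤ x ^ (1 : ℝ) := Real.rpow_le_rpow_of_exponent_le hx1 hα
          _ = x := Real.rpow_one x
    _ = _ := by ring

theorem admissible_of_few {α β ρ : ℝ} (hα : 0 < α) (hρ : 0 < ρ)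
    (hβ : α + ρ ≤ β) (h3 : 3 * ρ + α ≤ 1) (hβ1 : β ≤ 1)
    (h : FewGood β (ρ / 2)) : Admissible α := by
  classical
  by_contra hna
  unfold Admissible at hna
  push Not at hna
  obtain ⟨U, hU, hbad⟩ := hna
  set Un : ℕ := ⌈U⌉₊ with hUn
  have hUUn : U ≤ Un := Nat.le_ceil U
  have hα1 : α ≤ 1 := by linarith
  -- arbitrarily large bad x
  have hbad2 : ∀ (n : ℕ) (X0 : ℝ), ∃ x : ℝ, X0 ≤ x ∧ 3 ≤ x ∧
      (n : ℝ) * (x / (Real.log x) ^ Un) < SS α x := by
    intro n X0
    set Y := max X0 3 with hY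
    have hlogY : 0 < Real.log Y := Real.log_pos (by
      have : (3 : ℝ) ≤ Y := le_max_right _ _
      linarith)
    obtain ⟨x, hx3, hx⟩ := hbad (max (n : ℝ) (2 * Y * (Real.log Y) ^ U))
    have hlogx1 : 1 ≤ Real.log x := by
      rw [Real.le_log_iff_exp_le (by linarith)]
      have := Real.exp_one_lt_d9
      linarith
    have hpos : 0 < x / (Real.log x) ^ U := by positivity
    refine ⟨x, ?_, hx3, ?_⟩
    · by_contra hlt
      push Not at hlt
      have hxY : x ≤ Y := hlt.le.trans (le_max_left _ _)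
      have h1 : SS α x ≤ 2 * x * x := SS_le hα1 hx3
      have h2 : 2 * Y * (Real.log Y) ^ U * (x / (Real.log x) ^ U) ≤
          max (n : ℝ) (2 * Y * (Real.log Y) ^ U) * (x / (Real.log x) ^ U) :=
        mul_le_mul_of_nonneg_right (le_max_right _ _) hpos.le
      have h4 : (Real.log x) ^ U ≤ (Real.log Y) ^ U := by
        apply Real.rpow_le_rpow (by linarith) _ hU.le
        exact Real.log_le_log (by linarith) hxY
      have h5 : 2 * x * x ≤ 2 * Y * (Real.log Y) ^ U * (x / (Real.log x) ^ U) := by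
        have h6 : 0 < (Real.log x) ^ U := by positivity
        rw [mul_div_assoc', le_div_iff₀ h6]
        have h7 : 0 ≤ (Real.log Y) ^ U := by positivity
        calc 2 * x * x * (Real.log x) ^ U ≤ 2 * Y * x * (Real.log Y) ^ U := by gcongr
          _ = _ := by ring
      have h8 : SS α x < SS α x := by
        calc SS α x ≤ _ := h1
          _ ≤ _ := h5
          _ ≤ _ := h2
          _ < SS α x := hx
      exact lt_irrefl _ h8
    · have h2 : (n : ℝ) * (x / (Real.log x) ^ Un) ≤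
          max (n : ℝ) (2 * Y * (Real.log Y) ^ U) * (x / (Real.log x) ^ U) := by
        apply mul_le_mul (le_max_left _ _) _ (by positivity) (by positivity)
        apply div_le_div_of_nonneg_left (by linarith) (by positivity)
        rw [← Real.rpow_natCast]
        exact Real.rpow_le_rpow_of_exponent_le hlogx1 hUUn
      exact lt_of_le_of_lt h2 hx
  -- largeness
  set B : ℕ := Un + 2 with hB
  set K : ℕ → ℝ := fun m => (Real.log m) ^ (2 * ((Un + 4 : ℕ) : ℝ) + 2) with hKdef
  have hρ2 : 0 < ρ / 2 := by linarith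
  have hev : ∀ᶠ x : ℝ in Filter.atTop, 3 ≤ x ∧ 2048 ≤ Real.log x ∧
      16 * (Real.log x) ^ 2 ≤ x ^ (ρ / 2) ∧
      12 * (2 * Real.log x) ^ (2 * B + 5) ≤ x ^ (ρ / 2) - 1 ∧
      (∀ m : ℕ, x ^ (ρ / 2) < m → (2 * Real.log x) ^ (2 * B + 5) ≤ K m) := by
    have e1 := polylog_le 2 16 (ρ / 2) (by norm_num) hρ2
    have e2 := polylog_le (2 * B + 5) (13 * 2 ^ (2 * B + 5)) (ρ / 2) (by positivity) hρ2
    have e3 : ∀ᶠ x : ℝ in Filter.atTop, 2048 ≤ Real.log x :=
      Real.tendsto_log_atTop.eventually_ge_atTop 2048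
    have e7 : ∀ᶠ x : ℝ in Filter.atTop, 2 ^ (2 * B + 5) * (2 / ρ) ^ (2 * B + 6) ≤ Real.log x :=
      Real.tendsto_log_atTop.eventually_ge_atTop _
    filter_upwards [e1, e2, e3, e7, Filter.eventually_ge_atTop (3 : ℝ)] with x g1 g2 g3 g7 g8
    have hy1 : 1 ≤ Real.log x := by linarith
    refine ⟨g8, g3, g1, ?_, ?_⟩
    · have h1 : 1 ≤ (2 * Real.log x) ^ (2 * B + 5) := one_le_pow₀ (by linarith)
      have h2 : 13 * 2 ^ (2 * B + 5) * (Real.log x) ^ (2 * B + 5) =
          13 * (2 * Real.log x) ^ (2 * B + 5) := by rw [mul_pow]; ring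
      rw [h2] at g2
      linarith
    · intro m hm
      have hcast : (2 * ((Un + 4 : ℕ) : ℝ) + 2) = ((2 * B + 6 : ℕ) : ℝ) := by
        rw [hB]; push_cast; ring
      have hKm : K m = (Real.log m) ^ (2 * B + 6) := by
        rw [hKdef]
        simp only [hcast, Real.rpow_natCast]
      rw [hKm]
      have hlogm : (ρ / 2) * Real.log x ≤ Real.log m := by
        rw [← Real.log_rpow (by linarith)]
        exact Real.log_le_log (by positivity) hm.le
      have hstep : (2 * Real.log x) ^ (2 * B + 5) ≤ ((ρ / 2) * Real.log x) ^ (2 * B + 6) := by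
        rw [mul_pow, mul_pow, pow_succ (Real.log x) (2 * B + 5)]
        have h9 : 2 ^ (2 * B + 5) ≤ (ρ / 2) ^ (2 * B + 6) * Real.log x := by
          calc (2 : ℝ) ^ (2 * B + 5) =
                (ρ / 2) ^ (2 * B + 6) * (2 ^ (2 * B + 5) * (2 / ρ) ^ (2 * B + 6)) := by
                have h10 : (ρ / 2) ^ (2 * B + 6) * (2 / ρ) ^ (2 * B + 6) = 1 := by
                  rw [← mul_pow]
                  have : ρ / 2 * (2 / ρ) = 1 := by field_simp
                  rw [this, one_pow]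
                calc (2 : ℝ) ^ (2 * B + 5) = 2 ^ (2 * B + 5) * 1 := by ring
                  _ = 2 ^ (2 * B + 5) * ((ρ / 2) ^ (2 * B + 6) * (2 / ρ) ^ (2 * B + 6)) := by
                    rw [h10]
                  _ = _ := by ring
            _ ≤ _ := mul_le_mul_of_nonneg_left g7 (by positivity)
        calc 2 ^ (2 * B + 5) * (Real.log x) ^ (2 * B + 5)
            ≤ ((ρ / 2) ^ (2 * B + 6) * Real.log x) * (Real.log x) ^ (2 * B + 5) :=
            mul_le_mul_of_nonneg_right h9 (by positivity)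
          _ = _ := by ring
      exact hstep.trans (pow_le_pow_left₀ (by positivity) hlogm _)
  obtain ⟨x0, hx0⟩ := Filter.eventually_atTop.mp hev
  choose f hf1 hf2 hf3 using hbad2
  -- the sequence
  let g : ℝ → ℝ := fun t => max x0 (max (t + 1) (t ^ (2 * β / ρ)))
  let X : ℕ → ℝ := fun n => Nat.rec (f 0 x0) (fun k t => f (k + 1) (g t)) n
  have hX0 : X 0 = f 0 x0 := rfl
  have hXs : ∀ n, X (n + 1) = f (n + 1) (g (X n)) := fun n => rfl
  have hXx0 : ∀ n, x0 ≤ X n := by
    intro n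
    cases n with
    | zero => rw [hX0]; exact hf1 0 x0
    | succ n => rw [hXs]; exact (le_max_left _ _).trans (hf1 (n + 1) (g (X n)))
  have hX3 : ∀ n, 3 ≤ X n := by
    intro n
    cases n with
    | zero => rw [hX0]; exact hf2 0 x0
    | succ n => rw [hXs]; exact hf2 _ _
  have hXbad : ∀ n : ℕ, (n : ℝ) * (X n / (Real.log (X n)) ^ Un) < SS α (X n) := by
    intro n
    cases n with
    | zero => rw [hX0]; exact hf3 0 x0
    | succ n => rw [hXs]; exact hf3 (n + 1) (g (X n))
  have hXstep : ∀ n, X n + 1 ≤ X (n + 1) := by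
    intro n
    rw [hXs]
    exact (le_max_left _ _).trans ((le_max_right _ _).trans (hf1 (n + 1) (g (X n))))
  have hXpow : ∀ n, (X n) ^ β ≤ (X (n + 1)) ^ (ρ / 2) := by
    intro n
    have h1 : (X n) ^ (2 * β / ρ) ≤ X (n + 1) := by
      rw [hXs]
      exact (le_max_right _ _).trans ((le_max_right _ _).trans (hf1 (n + 1) (g (X n))))
    have h2 : 0 ≤ X n := by linarith [hX3 n]
    calc (X n) ^ β = ((X n) ^ (2 * β / ρ)) ^ (ρ / 2) := by
          rw [← Real.rpow_mul h2]; congr 1; field_simp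
      _ ≤ _ := Real.rpow_le_rpow (by positivity) h1 hρ2.le
  have hXmono : Monotone X := monotone_nat_of_le_succ fun n => by linarith [hXstep n]
  have hXn : ∀ n : ℕ, (n : ℝ) ≤ X n := by
    intro n
    induction n with
    | zero => push_cast; linarith [hX3 0]
    | succ n ih => push_cast; linarith [hXstep n]
  have hβ0 : 0 < β := by linarith
  have hstepfun : ∀ n : ℕ, ∃ r a : ℕ → ℕ, ∀ x' : ℝ, X n ≤ x' →
      x' ≤ X n + X n / (Real.log (X n)) ^ (B + 2) → ∀ e : ℕ → ℝ, (∀ m, 0 ≤ e m) →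
      (∀ m ∈ Icc 1 ⌊(X n) ^ β⌋₊, (X n) ^ (ρ / 2) < (m : ℝ) → Squarefree m → (r m).Prime →
        r m ∣ m → (m : ℝ) ^ (ρ / 2) ≤ r m → (a m).Coprime (m / r m) →
        min (K m) ((r m : ℝ) - 1) ≤ (goodCount x' m (r m) (a m) (e m) : ℝ)) →
      SS α (X n) ≤ 128 * (Real.log (X n)) ^ 2 * ∑ m ∈ Icc 1 ⌊(X n) ^ β⌋₊, e m +
        2 * X n * Real.log (X n) / (Real.log (X n)) ^ B := by
    intro n
    obtain ⟨g1, g2, g3, g4, g5⟩ := hx0 (X n) (hXx0 n)
    exact one_step B K hα hρ hβ h3 hβ1 g1 g2 g3 g4 g5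
  choose R A hRA using hstepfun
  set N : ℕ → ℕ := fun m => sInf {n : ℕ | (m : ℝ) ≤ (X n) ^ β} with hN
  have hNmem : ∀ m n : ℕ, (X n) ^ (ρ / 2) < (m : ℝ) → (m : ℝ) ≤ (X n) ^ β → N m = n := by
    intro m n h1 h2
    have h4 : N m ≤ n := Nat.sInf_le h2
    rcases h4.eq_or_lt with h5 | h5
    · exact h5
    · exfalso
      have h6 : (m : ℝ) ≤ (X (N m)) ^ β := Nat.sInf_mem (s := {n : ℕ | (m : ℝ) ≤ (X n) ^ β}) ⟨n, h2⟩
      have h7 := hXpow (N m)
      have h8 : X (N m + 1) ≤ X n := hXmono h5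
      have h9 : (X (N m + 1)) ^ (ρ / 2) ≤ (X n) ^ (ρ / 2) :=
        Real.rpow_le_rpow (by linarith [hX3 (N m + 1)]) h8 hρ2.le
      linarith
  obtain ⟨C, hC⟩ := h (fun m => R (N m) m) (fun m => A (N m) m) ((Un + 4 : ℕ) : ℝ)
    (by positivity)
  obtain ⟨n, hn⟩ := exists_nat_gt (128 * C + 2)
  obtain ⟨x', hx'1, hx'2, e, he0, hesum, hegood⟩ := hC (X n) (hX3 n)
  rw [Real.rpow_natCast] at hesum hx'2
  have hfin := hRA n x' hx'1 hx'2 e he0 (by
    intro m hm hm1 hsq hr hrm hz hcop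
    have hmle : (m : ℝ) ≤ (X n) ^ β := by
      rw [Finset.mem_Icc] at hm
      exact (Nat.cast_le.mpr hm.2).trans (Nat.floor_le (Real.rpow_nonneg (by linarith [hX3 n]) _))
    have hNm := hNmem m n hm1 hmle
    have := hegood m hm hsq
    simp only [hNm] at this
    exact this hr hrm hz hcop)
  have hbn := hXbad n
  obtain ⟨g1, g2, g3, g4, g5⟩ := hx0 (X n) (hXx0 n)
  set x := X n with hx
  set y := Real.log x with hy
  have hxpos : 0 < x := by linarith
  have hypos : 0 < y := by linarith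
  have hy1 : 1 ≤ y := by linarith
  have hsum0 : 0 ≤ ∑ m ∈ Icc 1 ⌊x ^ β⌋₊, e m := Finset.sum_nonneg fun m _ => he0 m
  have hC0 : 0 ≤ C := by
    have h1 : 0 ≤ C * (x / y ^ (Un + 4)) := hsum0.trans hesum
    have h2 : 0 < x / y ^ (Un + 4) := by positivity
    by_contra hneg
    push Not at hneg
    nlinarith
  have h10 : 128 * y ^ 2 * ∑ m ∈ Icc 1 ⌊x ^ β⌋₊, e m ≤ 128 * C * (x / y ^ Un) := by
    calc 128 * y ^ 2 * ∑ m ∈ Icc 1 ⌊x ^ β⌋₊, e m ≤ 128 * y ^ 2 * (C * (x / y ^ (Un + 4))) :=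
          mul_le_mul_of_nonneg_left hesum (by positivity)
      _ = 128 * C * (x / y ^ Un) / y ^ 2 := by
          rw [pow_add]; field_simp
      _ ≤ 128 * C * (x / y ^ Un) := div_le_self (by positivity) (one_le_pow₀ hy1)
  have h11 : 2 * x * y / y ^ B ≤ 2 * (x / y ^ Un) := by
    have h12 : 2 * x * y / y ^ B = 2 * (x / y ^ Un) / y := by
      rw [hB, pow_add]; field_simp
    rw [h12]
    exact div_le_self (by positivity) hy1
  have h13 : (n : ℝ) * (x / y ^ Un) < (128 * C + 2) * (x / y ^ Un) := by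
    calc (n : ℝ) * (x / y ^ Un) < SS α x := hbn
      _ ≤ _ := hfin
      _ ≤ 128 * C * (x / y ^ Un) + 2 * (x / y ^ Un) := add_le_add h10 h11
      _ = _ := by ring
  have h14 : 0 < x / y ^ Un := by positivity
  have := lt_of_mul_lt_mul_right h13 h14.le
  linarith

end Pool.Agent.Lib.EH
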