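import Pool.Agent.Lib.EH.Cont

/-! The main inequality for one value of x. -/

namespace Pool.Agent.Lib.EH

open Finset Pool.Agent.Results.MP_00e23e_nt

/-- the sum in the definition of admissibility -/
noncomputable def SS (α x : ℝ) : ℝ := ∑ d ∈ (Icc 1 ⌊x ^ α⌋₊).filter Squarefree, maxErr x d

lemma fiber_card {x ρ : ℝ} (D : Finset ℕ) (m : ℕ) (hm : 1 ≤ m) :
    ((((D.sigma (fun d => PP x ρ d)).filter (fun q => q.1 * q.2 = m)).card : ℕ) : ℝ) ≤
      2 * Real.log m := by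
  have h1 : ((D.sigma (fun d => PP x ρ d)).filter (fun q => q.1 * q.2 = m)).card ≤
      m.primeFactors.card := by
    apply Finset.card_le_card_of_injOn (fun q => q.2)
    · intro q hq
      simp only [coe_filter, mem_sigma, PP, mem_filter, Set.mem_ofPred_eq] at hq
      obtain ⟨⟨h1, h2, h3, h4, h5⟩, h6⟩ := hq
      simp only [mem_coe, Nat.mem_primeFactors]
      exact ⟨h3, ⟨q.1, by rw [← h6, mul_comm]⟩, by omega⟩
    · intro p hp q hq hpq
      simp only [coe_filter, mem_sigma, PP, mem_filter, Set.mem_ofPred_eq] at hp hq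
      obtain ⟨⟨h1, h2, h3, h4, h5⟩, h6⟩ := hp
      obtain ⟨⟨h1', h2', h3', h4', h5'⟩, h6'⟩ := hq
      obtain ⟨p1, p2⟩ := p
      obtain ⟨q1, q2⟩ := q
      simp only at hpq h6 h6' h3 h3'
      subst hpq
      have : p1 = q1 := by
        rw [← h6'] at h6
        exact Nat.eq_of_mul_eq_mul_right h3.pos h6
      subst this
      rfl
  have h2 : ((((D.sigma (fun d => PP x ρ d)).filter (fun q => q.1 * q.2 = m)).card : ℕ) : ℝ) ≤
      (m.primeFactors.card : ℝ) := by exact_mod_cast h1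
  exact h2.trans (card_primeFactors_le hm)

lemma nonexc {x Q : ℝ} {B : ℕ} {Km : ℝ} {d l r : ℕ}
    (hx : 3 ≤ x) (hd : 1 ≤ d) (hdx : (d : ℝ) ≤ x) (hy1 : 1 ≤ Real.log x)
    (hl1 : 1 ≤ l) (hl2 : l ≤ d) (hr3 : r.Prime) (hrQ : (r : ℝ) ≤ Q) (hr5 : ¬ r ∣ d)
    (hΔ : x / (d * (Real.log x) ^ B) ≤ |err x d l|)
    (hr_lower : 12 * (Real.log x) ^ (2 * B + 3) ≤ (r : ℝ) - 1)
    (hK : (Real.log x) ^ (2 * B + 3) ≤ Km)
    {e : ℝ}
    (hgood : min Km ((r : ℝ) - 1) ≤ (goodCount x (d * r) r l e : ℝ))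
    (hne : ¬ ((Real.log x) ^ (2 * B + 3) * |err x d l| ^ 2 ≤ 16 * (r : ℝ) ^ 2 * V x d l r)) :
    |err x d l| ≤ 4 * Q * e := by
  set y := Real.log x with hydef
  have hy0 : 0 < y := by linarith
  have hdpos : (0 : ℝ) < d := by exact_mod_cast hd
  have hΔpos : 0 < |err x d l| := lt_of_lt_of_le (by positivity) hΔ
  have hrpos : (0 : ℝ) < r := by exact_mod_cast hr3.pos
  by_contra hcon
  push Not at hcon
  have hpowle : y ^ (B + 1) ≤ y ^ (2 * B + 3) := pow_le_pow_right₀ hy1 (by omega)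
  have he : e < |err x d l| / (4 * r) := by
    rw [lt_div_iff₀ (by positivity)]
    by_cases he0 : 0 ≤ e
    · calc e * (4 * r) ≤ e * (4 * Q) := by gcongr
        _ = 4 * Q * e := by ring
        _ < _ := hcon
    · push Not at he0
      calc e * (4 * r) ≤ 0 := by nlinarith
        _ < _ := hΔpos
  have hli : li x / (d.totient * ((r : ℝ) - 1)) ≤ |err x d l| / 2 := by
    have h1 := li_le (x := x) (by linarith)
    have h2 := le_totient d
    have h3 := card_primeFactors_le hd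
    have h4 : Real.log d ≤ y := Real.log_le_log hdpos hdx
    have hφ : (0 : ℝ) < d.totient := by exact_mod_cast Nat.totient_pos.mpr hd
    have h5 : (d : ℝ) ≤ 3 * y * d.totient := by
      refine h2.trans ?_
      apply mul_le_mul_of_nonneg_right _ hφ.le
      linarith
    have hr1' : 0 < (r : ℝ) - 1 := by
      have : 0 < 12 * y ^ (2 * B + 3) := by positivity
      linarith
    rw [div_le_iff₀ (by positivity)]
    have h6 : x / (d * y ^ B) / 2 * (d.totient * ((r : ℝ) - 1)) ≤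
        |err x d l| / 2 * (d.totient * ((r : ℝ) - 1)) := by gcongr
    refine le_trans ?_ h6
    refine h1.trans ?_
    have h7 : x / (d * y ^ B) / 2 * (d.totient * ((r : ℝ) - 1)) =
        (x * (d.totient * ((r : ℝ) - 1))) / (2 * (d * y ^ B)) := by field_simp
    rw [h7, le_div_iff₀ (by positivity)]
    have h8 : 12 * (y * y ^ B) ≤ (r : ℝ) - 1 := by
      have : y * y ^ B = y ^ (B + 1) := by ring
      rw [this]; linarith
    have h9 : (d : ℝ) * (12 * (y * y ^ B)) ≤ 3 * y * d.totient * ((r : ℝ) - 1) :=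
      mul_le_mul h5 h8 (by positivity) (by positivity)
    have h10 : 4 * (d : ℝ) * y ^ B ≤ d.totient * ((r : ℝ) - 1) := by
      have h11 : 3 * y * (4 * (d : ℝ) * y ^ B) ≤ 3 * y * (d.totient * ((r : ℝ) - 1)) := by
        calc 3 * y * (4 * (d : ℝ) * y ^ B) = (d : ℝ) * (12 * (y * y ^ B)) := by ring
          _ ≤ _ := h9
          _ = _ := by ring
      exact le_of_mul_le_mul_left h11 (by positivity)
    calc 2 * x * (2 * (d * y ^ B)) = x * (4 * (d : ℝ) * y ^ B) := by ring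
      _ ≤ x * (d.totient * ((r : ℝ) - 1)) := mul_le_mul_of_nonneg_left h10 (by linarith)
  have hcop : d.Coprime r := ((Nat.Prime.coprime_iff_not_dvd hr3).mpr hr5).symm
  have h1 := zero_one (x := x) (by linarith) hd hl1 hl2 hr3 hcop he hli
  have h2 : y ^ (2 * B + 3) ≤ (goodCount x (d * r) r l e : ℝ) := by
    refine le_trans (le_min hK ?_) hgood
    have : 0 < y ^ (2 * B + 3) := by positivity
    linarith
  apply hne
  have h3 : y ^ (2 * B + 3) * (|err x d l| / (4 * r)) ^ 2 ≤ V x d l r :=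
    (mul_le_mul_of_nonneg_right h2 (sq_nonneg _)).trans h1
  rw [div_pow, ← mul_div_assoc, div_le_iff₀ (by positivity)] at h3
  calc _ ≤ _ := h3
    _ = _ := by ring

theorem one_step {x α β ρ : ℝ} (B : ℕ) (K : ℕ → ℝ) (hα : 0 < α) (hρ : 0 < ρ)
    (hβ : α + ρ ≤ β) (h3 : 3 * ρ + α ≤ 1) (hβ1 : β ≤ 1) (hx : 3 ≤ x)
    (hy : 2048 ≤ Real.log x)
    (h16 : 16 * (Real.log x) ^ 2 ≤ x ^ (ρ / 2))
    (hT : 12 * (2 * Real.log x) ^ (2 * B + 5) ≤ x ^ (ρ / 2) - 1)
    (hK : ∀ m : ℕ, x ^ (ρ / 2) < m → (2 * Real.log x) ^ (2 * B + 5) ≤ K m) :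
    ∃ r a : ℕ → ℕ, ∀ x' : ℝ, x ≤ x' → x' ≤ x + x / (Real.log x) ^ (B + 2) →
      ∀ e : ℕ → ℝ, (∀ m, 0 ≤ e m) →
      (∀ m ∈ Icc 1 ⌊x ^ β⌋₊, x ^ (ρ / 2) < (m : ℝ) → Squarefree m → (r m).Prime → r m ∣ m →
        (m : ℝ) ^ (ρ / 2) ≤ r m → (a m).Coprime (m / r m) →
        min (K m) ((r m : ℝ) - 1) ≤ (goodCount x' m (r m) (a m) (e m) : ℝ)) →
      SS α x ≤ 128 * (Real.log x) ^ 2 * ∑ m ∈ Icc 1 ⌊x ^ β⌋₊, e m +
        2 * x * Real.log x / (Real.log x) ^ B := by
  classical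
  set y := Real.log x with hydef
  set Q := x ^ ρ with hQdef
  have hx0 : 0 < x := by linarith
  have hx1 : 1 ≤ x := by linarith
  have hy1 : 1 ≤ y := by linarith
  have hy0 : 0 < y := by linarith
  have hρ1 : ρ ≤ 1 := by linarith
  have hQpos : 0 < Q := Real.rpow_pos_of_pos hx0 ρ
  have hQ1 : 1 ≤ Q := Real.one_le_rpow hx1 hρ.le
  -- the maximising classes
  have hex : ∀ d : ℕ, ∃ l : ℕ, 1 ≤ d → 1 ≤ l ∧ l ≤ d ∧ l.Coprime d ∧ maxErr x d = |err x d l| := by
    intro d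
    by_cases hd : 1 ≤ d
    · obtain ⟨l, h⟩ := exists_maxErr x hd
      exact ⟨l, fun _ => h⟩
    · exact ⟨0, fun h => absurd h hd⟩
  choose l hl using hex
  set D : Finset ℕ := (Icc 1 ⌊x ^ α⌋₊).filter
    (fun d => Squarefree d ∧ x / (d * y ^ B) ≤ maxErr x d) with hD
  have hD1 : ∀ d ∈ D, 1 ≤ d ∧ (d : ℝ) ≤ x ^ α ∧ Squarefree d ∧ x / (d * y ^ B) ≤ maxErr x d := by
    intro d hd
    simp only [hD, mem_filter, mem_Icc] at hd
    exact ⟨hd.1.1, (Nat.cast_le.mpr hd.1.2).trans (Nat.floor_le (by positivity)), hd.2.1, hd.2.2⟩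
  have hαx : x ^ α ≤ x := by
    calc x ^ α ≤ x ^ (1 : ℝ) := Real.rpow_le_rpow_of_exponent_le hx1 (by linarith)
      _ = x := Real.rpow_one x
  set P : Finset (Σ _ : ℕ, ℕ) := D.sigma (fun d => PP x ρ d) with hP
  set I : Finset ℕ := P.image (fun q => q.1 * q.2) with hI
  have hrepex : ∀ m : ℕ, ∃ q : (Σ _ : ℕ, ℕ), m ∈ I →
      q ∈ P.filter (fun q => q.1 * q.2 = m) ∧
      ∀ q' ∈ P.filter (fun q => q.1 * q.2 = m), maxErr x q'.1 ≤ maxErr x q.1 := by
    intro m
    by_cases hm : m ∈ I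
    · have hne : (P.filter (fun q => q.1 * q.2 = m)).Nonempty := by
        rw [hI, Finset.mem_image] at hm
        obtain ⟨q, hq1, hq2⟩ := hm
        exact ⟨q, Finset.mem_filter.mpr ⟨hq1, hq2⟩⟩
      obtain ⟨q, hq1, hq2⟩ := Finset.exists_max_image _ (fun q => maxErr x q.1) hne
      exact ⟨q, fun _ => ⟨hq1, hq2⟩⟩
    · exact ⟨⟨0, 0⟩, fun h => absurd h hm⟩
  choose rep hrep using hrepex
  refine ⟨fun m => (rep m).2, fun m => l (rep m).1, ?_⟩
  intro x' hxx' hx'x e he0 hgood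
  -- comparison of x and x'
  set y' := Real.log x' with hy'def
  have hx'0 : 0 < x' := by linarith
  have hx'2 : x' ≤ 2 * x := by
    have h1 : x / y ^ (B + 2) ≤ x := div_le_self hx0.le (one_le_pow₀ hy1)
    linarith
  have hyy' : y ≤ y' := Real.log_le_log hx0 hxx'
  have hy'y : y' ≤ 2 * y := by
    have h1 : y' ≤ Real.log (2 * x) := Real.log_le_log hx'0 hx'2
    rw [Real.log_mul (by norm_num) hx0.ne'] at h1
    have := Real.log_two_lt_d9
    linarith
  have hy'0 : 0 < y' := by linarith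
  have hy'1 : 1 ≤ y' := by linarith
  have hy'pow : y' ^ (2 * B + 5) ≤ (2 * y) ^ (2 * B + 5) := pow_le_pow_left₀ hy'0.le hy'y _
  -- facts on representatives
  have hPmem : ∀ q ∈ P, 1 ≤ q.1 ∧ (q.1 : ℝ) ≤ x ^ α ∧ Squarefree q.1 ∧
      x / (q.1 * y ^ B) ≤ maxErr x q.1 ∧ q.2 ∈ PP x ρ q.1 := by
    intro q hq
    rw [hP, Finset.mem_sigma] at hq
    obtain ⟨h1, h2, h3, h4⟩ := hD1 q.1 hq.1
    exact ⟨h1, h2, h3, h4, hq.2⟩
  have hPPmem : ∀ d r, r ∈ PP x ρ d → r.Prime ∧ (r : ℝ) ≤ Q ∧ x ^ (ρ / 2) < (r : ℝ) ∧ ¬ r ∣ d := by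
    intro d r hr
    unfold PP at hr
    simp only [mem_filter, mem_Icc] at hr
    exact ⟨hr.2.1, (Nat.cast_le.mpr hr.1.2).trans (Nat.floor_le (by positivity)), hr.2.2.1, hr.2.2.2⟩
  -- the classes stay bad at x'
  have hstay : ∀ d ∈ D, maxErr x d / 2 ≤ |err x' d (l d)| := by
    intro d hd
    obtain ⟨h1, h2, _, h4⟩ := hD1 d hd
    obtain ⟨hl1, hl2, hl3, hl4⟩ := hl d h1
    have hdpos : (0 : ℝ) < d := by exact_mod_cast h1
    have h5 := err_cont hx hxx' h1 (h2.trans hαx) hydef hy1 (l d)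
    have h6 : x' - x ≤ x / y ^ (B + 2) := by linarith
    have h7 : 7 * y * ((x' - x) / d) ≤ maxErr x d / 4 := by
      calc 7 * y * ((x' - x) / d) ≤ 7 * y * (x / y ^ (B + 2) / d) := by gcongr
        _ = (7 / y) * (x / (d * y ^ B)) := by
            rw [pow_add]; field_simp
        _ ≤ (1 / 4) * (x / (d * y ^ B)) := by
            apply mul_le_mul_of_nonneg_right _ (by positivity)
            rw [div_le_div_iff₀ hy0 (by norm_num)]; linarith
        _ ≤ (1 / 4) * maxErr x d := by gcongr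
        _ = _ := by ring
    have h8 : 3 ≤ maxErr x d / 4 := by
      have h9 : 12 * y ^ B ≤ x / d := by
        rw [le_div_iff₀ hdpos]
        have h10 : y ^ B ≤ (2 * y) ^ (2 * B + 5) := by
          calc y ^ B ≤ y ^ (2 * B + 5) := pow_le_pow_right₀ hy1 (by omega)
            _ ≤ _ := pow_le_pow_left₀ hy0.le (by linarith) _
        have h11 : 12 * y ^ B ≤ x ^ (ρ / 2) := by linarith
        calc 12 * y ^ B * d ≤ x ^ (ρ / 2) * x ^ α := mul_le_mul h11 h2 hdpos.le (by positivity)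
          _ = x ^ (ρ / 2 + α) := (Real.rpow_add hx0 _ _).symm
          _ ≤ x ^ (1 : ℝ) := Real.rpow_le_rpow_of_exponent_le hx1 (by linarith)
          _ = x := Real.rpow_one x
      have h12 : 12 ≤ x / (d * y ^ B) := by
        rw [← div_div, le_div_iff₀ (by positivity)]
        exact h9
      linarith
    have h9 := abs_sub_abs_le_abs_sub (err x d (l d)) (err x' d (l d))
    rw [abs_sub_comm (err x d (l d))] at h9
    rw [← hl4] at h9
    linarith
  have hstay2 : ∀ d ∈ D, x' / (d * y' ^ (B + 1)) ≤ |err x' d (l d)| := by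
    intro d hd
    obtain ⟨h1, h2, _, h4⟩ := hD1 d hd
    have hdpos : (0 : ℝ) < d := by exact_mod_cast h1
    have h5 := hstay d hd
    refine le_trans ?_ h5
    have h6 : x' / (d * y' ^ (B + 1)) ≤ x / (d * y ^ B) / 2 := by
      have h7 : x / (d * y ^ B) / 2 = x / (2 * (d * y ^ B)) := by field_simp
      rw [h7, div_le_div_iff₀ (by positivity) (by positivity)]
      have h8 : y ^ B ≤ y' ^ B := pow_le_pow_left₀ hy0.le hyy' _
      have h9 : 4 * y ^ B ≤ y' ^ (B + 1) := by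
        rw [pow_succ]
        have h10 : 4 ≤ y' := by linarith
        calc 4 * y ^ B ≤ 4 * y' ^ B := by linarith
          _ ≤ y' ^ B * y' := by nlinarith [pow_pos hy'0 B]
      calc x' * (2 * (d * y ^ B)) ≤ (2 * x) * (2 * (d * y ^ B)) := by gcongr
        _ = x * (d * (4 * y ^ B)) := by ring
        _ ≤ x * (d * y' ^ (B + 1)) := by gcongr
    linarith
  set exc : (Σ _ : ℕ, ℕ) → Prop := fun q =>
    y' ^ (2 * (B + 1) + 3) * |err x' q.1 (l q.1)| ^ 2 ≤
      16 * (q.2 : ℝ) ^ 2 * V x' q.1 (l q.1) q.2 with hexc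
  have hqm : ∀ q ∈ P, ((q.1 * q.2 : ℕ) : ℝ) ≤ x ^ β := by
    intro q hq
    obtain ⟨h1, h2, _, _, h5⟩ := hPmem q hq
    obtain ⟨_, h6, _, _⟩ := hPPmem _ _ h5
    push_cast
    calc (q.1 : ℝ) * q.2 ≤ x ^ α * x ^ ρ := mul_le_mul h2 h6 (by positivity) (by positivity)
      _ = x ^ (α + ρ) := (Real.rpow_add hx0 α ρ).symm
      _ ≤ x ^ β := Real.rpow_le_rpow_of_exponent_le hx1 hβ
  have hPD : ∀ q ∈ P, q.1 ∈ D := by
    intro q hq
    rw [hP, Finset.mem_sigma] at hq
    exact hq.1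
  have hmI : ∀ m ∈ I, maxErr x (rep m).1 ≤ 8 * Q * e m +
      (if exc (rep m) then maxErr x (rep m).1 else 0) := by
    intro m hm
    obtain ⟨hq, _⟩ := hrep m hm
    rw [Finset.mem_filter] at hq
    obtain ⟨hqP, hqm'⟩ := hq
    obtain ⟨h1, h2, h3', h4, h5⟩ := hPmem _ hqP
    obtain ⟨hr1, hr2, hr3, hr4⟩ := hPPmem _ _ h5
    obtain ⟨hl1, hl2, hl3, hl4⟩ := hl (rep m).1 h1
    have he := he0 m
    by_cases hx' : exc (rep m)
    · rw [if_pos hx']
      have : 0 ≤ 8 * Q * e m := by positivity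
      linarith
    · rw [if_neg hx', add_zero]
      have hdx : ((rep m).1 : ℝ) ≤ x := h2.trans hαx
      have hmle : (m : ℝ) ≤ x ^ β := by
        have := hqm _ hqP
        rwa [hqm'] at this
      have hmpos : 1 ≤ m := by
        rw [← hqm']; exact Nat.mul_pos h1 hr1.pos
      have hmr : ((rep m).2 : ℝ) ≤ m := by
        have : (rep m).2 ≤ m := (Nat.le_mul_of_pos_left _ h1).trans_eq hqm'
        exact_mod_cast this
      have hm1 : x ^ (ρ / 2) < (m : ℝ) := lt_of_lt_of_le hr3 hmr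
      have hmdiv : m / (rep m).2 = (rep m).1 :=
        Nat.div_eq_of_eq_mul_left hr1.pos hqm'.symm
      have hcop : (rep m).1.Coprime (rep m).2 :=
        ((Nat.Prime.coprime_iff_not_dvd hr1).mpr hr4).symm
      have hsq : Squarefree m := by
        rw [← hqm', Nat.squarefree_mul hcop]
        exact ⟨h3', hr1.squarefree⟩
      have hzeta : (m : ℝ) ^ (ρ / 2) ≤ (rep m).2 := by
        have h7 : (m : ℝ) ≤ x := by
          calc (m : ℝ) ≤ x ^ β := hmle
            _ ≤ x ^ (1 : ℝ) := Real.rpow_le_rpow_of_exponent_le hx1 hβ1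
            _ = x := Real.rpow_one x
        calc (m : ℝ) ^ (ρ / 2) ≤ x ^ (ρ / 2) := Real.rpow_le_rpow (by positivity) h7 (by linarith)
          _ ≤ _ := hr3.le
      have hg := hgood m (Finset.mem_Icc.mpr ⟨hmpos, Nat.le_floor hmle⟩) hm1 hsq hr1
        ⟨(rep m).1, by rw [mul_comm]; exact hqm'.symm⟩ hzeta (by rw [hmdiv]; exact hl3)
      have hg' : min (K m) (((rep m).2 : ℝ) - 1) ≤
          (goodCount x' ((rep m).1 * (rep m).2) (rep m).2 (l (rep m).1) (e m) : ℝ) := by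
        rw [hqm']; exact hg
      have hpe : 2 * (B + 1) + 3 = 2 * B + 5 := by ring
      have h8 := nonexc (B := B + 1) (e := e m) (x := x') (Q := Q) (by linarith) h1
        (hdx.trans hxx') hy'1 hl1 hl2 hr1 hr2 hr4 (hstay2 _ (hPD _ hqP))
        (by rw [hpe]; linarith) (by rw [hpe]; exact hy'pow.trans (hK m hm1)) hg' hx'
      have h9 := hstay _ (hPD _ hqP)
      linarith
  -- exceptional pairs
  have hexcsum : ∑ q ∈ P, (if exc q then maxErr x q.1 else 0) ≤
      (128 * Q / y ^ 3) * ∑ d ∈ D, maxErr x d := by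
    rw [hP, Finset.sum_sigma, Finset.mul_sum]
    apply Finset.sum_le_sum
    intro d hd
    obtain ⟨h1, h2, _, h4⟩ := hD1 d hd
    obtain ⟨hl1, hl2, hl3, hl4⟩ := hl d h1
    have hdpos : (0 : ℝ) < d := by exact_mod_cast h1
    have hΔpos : 0 < maxErr x d := lt_of_lt_of_le (by positivity) h4
    have hΔ'pos : 0 < |err x' d (l d)| := lt_of_lt_of_le (by positivity) (hstay d hd)
    rw [← Finset.sum_filter]
    change ∑ _a ∈ (PP x ρ d).filter (fun a => exc ⟨d, a⟩), maxErr x d ≤ _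
    rw [Finset.sum_const, nsmul_eq_mul]
    apply mul_le_mul_of_nonneg_right _ hΔpos.le
    have hQ3 : Q ^ 3 ≤ x' / d := by
      rw [le_div_iff₀ hdpos, hQdef, ← Real.rpow_natCast, ← Real.rpow_mul hx0.le]
      calc x ^ (ρ * ((3 : ℕ) : ℝ)) * (d : ℝ) ≤ x ^ (ρ * ((3 : ℕ) : ℝ)) * x ^ α := by gcongr
        _ = x ^ (ρ * ((3 : ℕ) : ℝ) + α) := (Real.rpow_add hx0 _ _).symm
        _ ≤ x ^ (1 : ℝ) := Real.rpow_le_rpow_of_exponent_le hx1 (by push_cast; linarith)
        _ = x := Real.rpow_one x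
        _ ≤ x' := hxx'
    have hxd : 1 ≤ x' / d := by
      refine le_trans ?_ hQ3
      exact one_le_pow₀ hQ1
    have h5 := exc_count (l := l d) (K0 := y' ^ (2 * (B + 1) + 3)) (Δ := |err x' d (l d)|) hxd hQ1 hQ3
      (PP x ρ d) (fun r hr => ⟨(hPPmem d r hr).1, (hPPmem d r hr).2.1⟩) (by positivity) hΔ'pos
    have h6 : (x' / d) ^ 2 ≤ |err x' d (l d)| ^ 2 * y' ^ (2 * (B + 1)) := by
      have h7 : x' / d ≤ |err x' d (l d)| * y' ^ (B + 1) := by
        have h8 : x' / d = x' / (d * y' ^ (B + 1)) * y' ^ (B + 1) := by field_simp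
        rw [h8]
        exact mul_le_mul_of_nonneg_right (hstay2 d hd) (by positivity)
      calc (x' / d) ^ 2 ≤ (|err x' d (l d)| * y' ^ (B + 1)) ^ 2 := by gcongr
        _ = _ := by ring
    have h9 : (((PP x ρ d).filter (fun r : ℕ => y' ^ (2 * (B + 1) + 3) * |err x' d (l d)| ^ 2 ≤
        16 * (r : ℝ) ^ 2 * V x' d (l d) r)).card : ℝ) *
        (y' ^ (2 * (B + 1) + 3) * |err x' d (l d)| ^ 2) ≤
        (128 * Q / y' ^ 3) * (y' ^ (2 * (B + 1) + 3) * |err x' d (l d)| ^ 2) := by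
      refine h5.trans ?_
      calc 128 * Q * (x' / d) ^ 2 ≤ 128 * Q * (|err x' d (l d)| ^ 2 * y' ^ (2 * (B + 1))) := by
            gcongr
        _ = (128 * Q / y' ^ 3) * (y' ^ (2 * (B + 1) + 3) * |err x' d (l d)| ^ 2) := by
          have h10 : y' ^ (2 * (B + 1) + 3) = y' ^ (2 * (B + 1)) * y' ^ 3 := pow_add y' _ _
          rw [h10]
          field_simp
    have h10 := le_of_mul_le_mul_right h9 (by positivity)
    refine le_trans h10 ?_
    apply div_le_div_of_nonneg_left (by positivity) (by positivity)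
    exact pow_le_pow_left₀ hy0.le hyy' _
  -- count
  have hlow : (Q / (4 * y)) * ∑ d ∈ D, maxErr x d ≤ ∑ q ∈ P, maxErr x q.1 := by
    rw [hP, Finset.sum_sigma, Finset.mul_sum]
    apply Finset.sum_le_sum
    intro d hd
    obtain ⟨h1, h2, _, h4⟩ := hD1 d hd
    change _ ≤ ∑ _s ∈ PP x ρ d, maxErr x d
    rw [Finset.sum_const, nsmul_eq_mul]
    apply mul_le_mul_of_nonneg_right _ (maxErr_nonneg x d)
    exact primes_lower hρ1 hy1 h16 h1 (h2.trans hαx)
  have hup : ∑ q ∈ P, maxErr x q.1 ≤ 2 * y * ∑ m ∈ I, maxErr x (rep m).1 := by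
    have h1 := Finset.sum_fiberwise_of_maps_to (s := P) (t := I) (g := fun q => q.1 * q.2)
      (f := fun q => maxErr x q.1) (fun q hq => Finset.mem_image_of_mem _ hq)
    rw [← h1, Finset.mul_sum]
    apply Finset.sum_le_sum
    intro m hm
    obtain ⟨hq, hmax⟩ := hrep m hm
    rw [Finset.mem_filter] at hq
    obtain ⟨g1, g2, _, _, g5⟩ := hPmem _ hq.1
    have hmpos : 1 ≤ m := by
      rw [← hq.2]; exact Nat.mul_pos g1 (hPPmem _ _ g5).1.pos
    have hmx : (m : ℝ) ≤ x := by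
      have := hqm _ hq.1
      rw [hq.2] at this
      calc (m : ℝ) ≤ x ^ β := this
        _ ≤ x ^ (1 : ℝ) := Real.rpow_le_rpow_of_exponent_le hx1 hβ1
        _ = x := Real.rpow_one x
    have h2 : ∑ q ∈ P.filter (fun q => q.1 * q.2 = m), maxErr x q.1 ≤
        ∑ _q ∈ P.filter (fun q => q.1 * q.2 = m), maxErr x (rep m).1 :=
      Finset.sum_le_sum fun q hq => hmax q hq
    rw [Finset.sum_const, nsmul_eq_mul] at h2
    refine h2.trans (mul_le_mul_of_nonneg_right ?_ (maxErr_nonneg x _))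
    refine (fiber_card D m hmpos).trans ?_
    have : Real.log m ≤ y := Real.log_le_log (by exact_mod_cast hmpos) hmx
    linarith
  have hIsum : ∑ m ∈ I, maxErr x (rep m).1 ≤ 8 * Q * ∑ m ∈ Icc 1 ⌊x ^ β⌋₊, e m +
      ∑ q ∈ P, (if exc q then maxErr x q.1 else 0) := by
    refine (Finset.sum_le_sum hmI).trans ?_
    rw [Finset.sum_add_distrib]
    apply add_le_add
    · rw [← Finset.mul_sum]
      apply mul_le_mul_of_nonneg_left _ (by positivity)
      apply Finset.sum_le_sum_of_subset_of_nonneg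
      · intro m hm
        rw [hI, Finset.mem_image] at hm
        obtain ⟨q, hq, hqm2⟩ := hm
        obtain ⟨g1, _, _, _, g5⟩ := hPmem _ hq
        rw [Finset.mem_Icc]
        refine ⟨?_, ?_⟩
        · rw [← hqm2]; exact Nat.mul_pos g1 (hPPmem _ _ g5).1.pos
        · apply Nat.le_floor
          rw [← hqm2]; exact hqm q hq
      · intro m _ _; exact he0 m
    · have hinj : Set.InjOn rep (I : Set ℕ) := by
        intro a ha b hb hab
        obtain ⟨h1, _⟩ := hrep a ha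
        obtain ⟨h2, _⟩ := hrep b hb
        rw [Finset.mem_filter] at h1 h2
        rw [← h1.2, ← h2.2, hab]
      have h1 : ∑ m ∈ I, (if exc (rep m) then maxErr x (rep m).1 else 0) =
          ∑ q ∈ I.image rep, (if exc q then maxErr x q.1 else 0) := by
        rw [Finset.sum_image hinj]
      rw [h1]
      apply Finset.sum_le_sum_of_subset_of_nonneg
      · intro q hq
        rw [Finset.mem_image] at hq
        obtain ⟨m, hm, rfl⟩ := hq
        exact (Finset.mem_filter.mp (hrep m hm).1).1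
      · intro q _ _
        split_ifs
        · exact maxErr_nonneg x _
        · exact le_rfl
  set W := ∑ d ∈ D, maxErr x d with hW
  set Es := ∑ m ∈ Icc 1 ⌊x ^ β⌋₊, e m with hEs
  have hW0 : 0 ≤ W := Finset.sum_nonneg fun d _ => maxErr_nonneg x d
  have hEs0 : 0 ≤ Es := Finset.sum_nonneg fun m _ => he0 m
  have hWbound : W ≤ 128 * y ^ 2 * Es := by
    have h1 : (Q / (4 * y)) * W ≤ 2 * y * (8 * Q * Es + (128 * Q / y ^ 3) * W) := by
      refine (hlow.trans hup).trans ?_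
      apply mul_le_mul_of_nonneg_left _ (by positivity)
      linarith
    have h2 : W ≤ 64 * y ^ 2 * Es + (1024 / y) * W := by
      have h3 : (4 * y / Q) * ((Q / (4 * y)) * W) ≤
          (4 * y / Q) * (2 * y * (8 * Q * Es + (128 * Q / y ^ 3) * W)) :=
        mul_le_mul_of_nonneg_left h1 (by positivity)
      have h4 : (4 * y / Q) * ((Q / (4 * y)) * W) = W := by field_simp
      have h5 : (4 * y / Q) * (2 * y * (8 * Q * Es + (128 * Q / y ^ 3) * W)) =
          64 * y ^ 2 * Es + (1024 / y) * W := by field_simp; ring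
      rw [h4, h5] at h3
      exact h3
    have h6 : 1024 / y ≤ 1 / 2 := by
      rw [div_le_div_iff₀ hy0 (by norm_num)]; linarith
    nlinarith
  -- the whole sum
  have hsplit : SS α x ≤ W + ∑ d ∈ Icc 1 ⌊x ^ α⌋₊, x / (d * y ^ B) := by
    unfold SS
    have h1 : ∑ d ∈ (Icc 1 ⌊x ^ α⌋₊).filter Squarefree, maxErr x d =
        ∑ d ∈ ((Icc 1 ⌊x ^ α⌋₊).filter Squarefree).filter (fun d => x / (d * y ^ B) ≤ maxErr x d),
          maxErr x d +
        ∑ d ∈ ((Icc 1 ⌊x ^ α⌋₊).filter Squarefree).filter (fun d => ¬ x / (d * y ^ B) ≤ maxErr x d),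
          maxErr x d := (Finset.sum_filter_add_sum_filter_not _ _ _).symm
    rw [h1, Finset.filter_filter]
    apply add_le_add le_rfl
    calc ∑ d ∈ ((Icc 1 ⌊x ^ α⌋₊).filter Squarefree).filter (fun d => ¬ x / (d * y ^ B) ≤ maxErr x d),
          maxErr x d
        ≤ ∑ d ∈ ((Icc 1 ⌊x ^ α⌋₊).filter Squarefree).filter
            (fun d => ¬ x / (d * y ^ B) ≤ maxErr x d), x / (d * y ^ B) := by
          apply Finset.sum_le_sum
          intro d hd
          rw [Finset.mem_filter] at hd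
          exact (not_le.mp hd.2).le
      _ ≤ _ := by
          apply Finset.sum_le_sum_of_subset_of_nonneg
          · exact (Finset.filter_subset _ _).trans (Finset.filter_subset _ _)
          · intro d _ _; positivity
  have hharm : ∑ d ∈ Icc 1 ⌊x ^ α⌋₊, x / (d * y ^ B) ≤ 2 * x * y / y ^ B := by
    have h1 : ∑ d ∈ Icc 1 ⌊x ^ α⌋₊, x / (d * y ^ B) =
        (x / y ^ B) * ∑ d ∈ Icc 1 ⌊x ^ α⌋₊, ((d : ℝ))⁻¹ := by
      rw [Finset.mul_sum]
      exact Finset.sum_congr rfl fun d _ => by field_simp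
    have h2 : ∑ d ∈ Icc 1 ⌊x ^ α⌋₊, ((d : ℝ))⁻¹ ≤ 1 + Real.log ⌊x ^ α⌋₊ := by
      have := harmonic_le_one_add_log ⌊x ^ α⌋₊
      rw [harmonic_eq_sum_Icc] at this
      push_cast at this
      exact this
    have h3' : Real.log ⌊x ^ α⌋₊ ≤ y := by
      have h4 : 1 ≤ ⌊x ^ α⌋₊ := by
        apply Nat.le_floor
        push_cast
        exact Real.one_le_rpow hx1 hα.le
      apply Real.log_le_log (by exact_mod_cast h4)
      exact (Nat.floor_le (by positivity)).trans hαx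
    rw [h1]
    calc (x / y ^ B) * ∑ d ∈ Icc 1 ⌊x ^ α⌋₊, ((d : ℝ))⁻¹ ≤ (x / y ^ B) * (2 * y) := by
          apply mul_le_mul_of_nonneg_left _ (by positivity)
          linarith
      _ = _ := by ring
  linarith

end Pool.Agent.Lib.EH
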