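import Pool.Agent.Lib.EH.ZeroOne

/-! Many primes in the range used for lifting. -/

namespace Pool.Agent.Lib.EH

open Finset Pool.Agent.Results.MP_00e23e_nt

/-- primes in (x^(ρ/2), x^ρ] not dividing d -/
noncomputable def PP (x ρ : ℝ) (d : ℕ) : Finset ℕ :=
  (Icc 1 ⌊x ^ ρ⌋₊).filter (fun r => r.Prime ∧ x ^ (ρ / 2) < (r : ℝ) ∧ ¬ r ∣ d)

lemma polylog_le (A : ℕ) (C s : ℝ) (hC : 0 < C) (hs : 0 < s) :
    ∀ᶠ x : ℝ in Filter.atTop, C * (Real.log x) ^ A ≤ x ^ s := by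
  have h := (isLittleO_log_rpow_rpow_atTop (A : ℝ) hs).bound (c := 1 / C) (by positivity)
  filter_upwards [h, Filter.eventually_ge_atTop (1 : ℝ)] with x hx hx1
  have h1 : 0 ≤ Real.log x := Real.log_nonneg hx1
  rw [Real.rpow_natCast, Real.norm_eq_abs, Real.norm_eq_abs, abs_of_nonneg (by positivity),
    abs_of_nonneg (by positivity)] at hx
  have : C * (Real.log x) ^ A ≤ C * (1 / C * x ^ s) := mul_le_mul_of_nonneg_left hx hC.le
  rwa [← mul_assoc, mul_one_div_cancel hC.ne', one_mul] at this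

lemma card_primes (n : ℕ) : ((Icc 1 n).filter Nat.Prime).card = Nat.primeCounting n := by
  unfold Nat.primeCounting Nat.primeCounting'
  rw [Nat.count_eq_card_filter_range]
  congr 1
  ext p
  simp only [mem_filter, mem_Icc, mem_range]
  constructor
  · rintro ⟨⟨_, h⟩, hp⟩; exact ⟨by omega, hp⟩
  · rintro ⟨h, hp⟩; exact ⟨⟨hp.one_le, by omega⟩, hp⟩

lemma primes_lower {x ρ : ℝ} (hρ1 : ρ ≤ 1) (hy : 1 ≤ Real.log x)
    (h16 : 16 * (Real.log x) ^ 2 ≤ x ^ (ρ / 2)) {d : ℕ} (hd : 1 ≤ d) (hdx : (d : ℝ) ≤ x) :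
    x ^ ρ / (4 * Real.log x) ≤ ((PP x ρ d).card : ℝ) := by
  have hx0 : 0 < x := lt_of_lt_of_le (by exact_mod_cast hd) hdx
  set y := Real.log x with hydef
  set Q := x ^ ρ with hQ
  set T := x ^ (ρ / 2) with hT
  have hTT : T * T = Q := by
    rw [hT, hQ, ← Real.rpow_add hx0]; congr 1; ring
  have hT16 : 16 ≤ T := by nlinarith
  have hQ256 : 256 ≤ Q := by nlinarith
  have hQpos : 0 < Q := by linarith
  have hlogQ : Real.log Q = ρ * y := Real.log_rpow hx0 ρ
  have hlogQ1 : Real.log Q ≤ y := by rw [hlogQ]; nlinarith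
  have hlogQ0 : 0 < Real.log Q := Real.log_pos (by linarith)
  have h1 := Chebyshev.pi_ge' (x := Q) (by linarith)
  have h2 : Real.log (Q + 2) ≤ (Q + 2) / 16 - 1 + 4 * Real.log 2 := by
    have h3 := Real.log_le_sub_one_of_pos (x := (Q + 2) / 16) (by positivity)
    rw [Real.log_div (by positivity) (by norm_num)] at h3
    have h4 : Real.log 16 = 4 * Real.log 2 := by
      rw [show (16 : ℝ) = 2 ^ 4 by norm_num, Real.log_pow]; norm_num
    linarith
  have hl1 := Real.log_two_gt_d9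
  have hl2 := Real.log_two_lt_d9
  have h5 : Q / 2 ≤ (Q - 1) * Real.log 2 - Real.log (Q + 2) := by nlinarith
  have h6 : Q / (2 * y) ≤ (Nat.primeCounting ⌊Q⌋₊ : ℝ) := by
    refine le_trans ?_ h1
    rw [div_le_div_iff₀ (by positivity) hlogQ0]
    have h7 : Q / 2 * Real.log Q ≤ ((Q - 1) * Real.log 2 - Real.log (Q + 2)) * y :=
      mul_le_mul h5 hlogQ1 hlogQ0.le (by linarith)
    linarith
  have h8 : ((Icc 1 ⌊Q⌋₊).filter Nat.Prime) ⊆ PP x ρ d ∪ (Icc 1 ⌊T⌋₊ ∪ d.primeFactors) := by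
    intro p hp
    simp only [mem_filter, mem_Icc] at hp
    obtain ⟨⟨hp1, hp2⟩, hpp⟩ := hp
    simp only [mem_union, mem_Icc, PP, mem_filter]
    by_cases hdvd : p ∣ d
    · right; right
      exact Nat.mem_primeFactors.mpr ⟨hpp, hdvd, by omega⟩
    · by_cases hT' : T < (p : ℝ)
      · left; exact ⟨⟨hp1, hp2⟩, hpp, hT', hdvd⟩
      · right; left
        exact ⟨hp1, Nat.le_floor (not_lt.mp hT')⟩
  have h9 := (Finset.card_le_card h8).trans ((Finset.card_union_le _ _).trans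
    (Nat.add_le_add_left (Finset.card_union_le _ _) _))
  rw [card_primes] at h9
  have h10 : (Nat.primeCounting ⌊Q⌋₊ : ℝ) ≤ ((PP x ρ d).card : ℝ) + (⌊T⌋₊ + d.primeFactors.card) := by
    have : (Icc 1 ⌊T⌋₊).card = ⌊T⌋₊ := by simp
    rw [this] at h9
    exact_mod_cast h9
  have h11 : ((⌊T⌋₊ : ℕ) : ℝ) ≤ T := Nat.floor_le (by linarith)
  have h12 := card_primeFactors_le hd
  have h13 : Real.log d ≤ y := Real.log_le_log (by exact_mod_cast hd) hdx
  have h14 : T + 2 * y ≤ Q / (4 * y) := by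
    rw [le_div_iff₀ (by positivity)]
    nlinarith
  have h15 : Q / (2 * y) = Q / (4 * y) + Q / (4 * y) := by field_simp; ring
  linarith

end Pool.Agent.Lib.EH
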