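import Mathlib

/-! Elementary large sieve for residue classes modulo primes. -/

namespace Pool.Agent.Lib.EH

open Finset

/-- number of elements of `A` congruent to `t` modulo `r` -/
noncomputable def cnt (A : Finset ℕ) (r t : ℕ) : ℝ := ((A.filter (fun n => n % r = t)).card : ℝ)

noncomputable def dev (A : Finset ℕ) (r t : ℕ) : ℝ := cnt A r t - (A.card : ℝ) / r

lemma sum_cnt (A : Finset ℕ) {r : ℕ} (hr : 0 < r) :
    ∑ t ∈ range r, cnt A r t = (A.card : ℝ) := by
  have h := Finset.card_eq_sum_card_fiberwise (s := A) (t := range r) (f := fun n => n % r)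
    (fun n _ => by simpa using Nat.mod_lt n hr)
  unfold cnt
  rw [h]
  push_cast
  rfl

lemma sum_dev (A : Finset ℕ) {r : ℕ} (hr : 0 < r) :
    ∑ t ∈ range r, dev A r t = 0 := by
  unfold dev
  rw [Finset.sum_sub_distrib, sum_cnt A hr]
  simp
  field_simp
  simp

lemma sum_comp_mod (A : Finset ℕ) {r : ℕ} (hr : 0 < r) (g : ℕ → ℝ) :
    ∑ n ∈ A, g (n % r) = ∑ t ∈ range r, g t * cnt A r t := by
  have h := Finset.sum_fiberwise_of_maps_to (s := A) (t := range r) (g := fun n => n % r)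
    (f := fun n => g (n % r)) (fun n _ => by simpa using Nat.mod_lt n hr)
  rw [← h]
  refine Finset.sum_congr rfl fun t _ => ?_
  rw [Finset.sum_congr rfl (g := fun _ => g t)]
  · simp [cnt, mul_comm]
  · intro n hn
    simp only [mem_filter] at hn
    rw [hn.2]

lemma count_bound {r : ℕ} (hr : 0 < r) (N v : ℕ) (hv : v < r) :
    |(((range N).filter (fun n => n % r = v)).card : ℝ) - (N : ℝ) / r| ≤ 1 := by
  have h1 : ((range N).filter (fun n => n % r = v)).card = N.count (· ≡ v [MOD r]) := by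
    rw [Nat.count_eq_card_filter_range]
    congr 1
    apply Finset.filter_congr
    intro n _
    unfold Nat.ModEq
    rw [Nat.mod_eq_of_lt hv]
  rw [h1]
  have h2 := Nat.count_modEq_card_eq_ceil N hr v
  have h3 : ((N.count (· ≡ v [MOD r]) : ℤ) : ℚ) = ((⌈((N : ℚ) - (v % r : ℕ)) / (r : ℚ)⌉ : ℤ) : ℚ) := by
    rw [← h2]
  rw [Nat.mod_eq_of_lt hv] at h3
  have hrq : (0 : ℚ) < r := by exact_mod_cast hr
  have h4 := Int.le_ceil (((N : ℚ) - (v : ℕ)) / (r : ℚ))
  have h5 := Int.ceil_lt_add_one (((N : ℚ) - (v : ℕ)) / (r : ℚ))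
  have hvq : (v : ℚ) < r := by exact_mod_cast hv
  have hv0 : (0 : ℚ) ≤ v := by positivity
  have h6 : (v : ℚ) / r < 1 := by rw [div_lt_one hrq]; exact hvq
  have h7 : (0 : ℚ) ≤ (v : ℚ) / r := by positivity
  rw [← h3] at h4 h5
  rw [sub_div] at h4 h5
  have h8 : |((N.count (· ≡ v [MOD r]) : ℕ) : ℚ) - (N : ℚ) / r| ≤ 1 := by
    rw [abs_le]
    push_cast at h4 h5
    constructor <;> linarith
  have h9 : ((|((N.count (· ≡ v [MOD r]) : ℕ) : ℚ) - (N : ℚ) / r| : ℚ) : ℝ) ≤ ((1 : ℚ) : ℝ) := by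
    exact_mod_cast h8
  simpa using h9

/-- double count for two coprime moduli -/
lemma count_bound_two {r s : ℕ} (hr : 0 < r) (hs : 0 < s) (hrs : r.Coprime s) (N t u : ℕ)
    (ht : t < r) (hu : u < s) :
    |(((range N).filter (fun n => n % r = t ∧ n % s = u)).card : ℝ) - (N : ℝ) / (r * s)| ≤ 1 := by
  obtain ⟨v, hv1, hv2⟩ := Nat.chineseRemainder hrs t u
  have hrs0 : 0 < r * s := Nat.mul_pos hr hs
  have h := count_bound hrs0 N (v % (r * s)) (Nat.mod_lt _ hrs0)
  have heq : (range N).filter (fun n => n % (r * s) = v % (r * s)) =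
      (range N).filter (fun n => n % r = t ∧ n % s = u) := by
    apply Finset.filter_congr
    intro n _
    have : n ≡ v [MOD r * s] ↔ n ≡ v [MOD r] ∧ n ≡ v [MOD s] :=
      (Nat.modEq_and_modEq_iff_modEq_mul hrs).symm
    unfold Nat.ModEq at *
    rw [this, hv1, hv2, Nat.mod_eq_of_lt ht, Nat.mod_eq_of_lt hu]
  rw [heq] at h
  push_cast at h
  exact h

lemma cross_bound {r s : ℕ} (hr : 0 < r) (hs : 0 < s) (hrs : r.Coprime s) (N : ℕ)
    (g h : ℕ → ℝ) (hg : ∑ t ∈ range r, g t = 0) :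
    |∑ n ∈ range N, g (n % r) * h (n % s)| ≤ (∑ t ∈ range r, |g t|) * (∑ u ∈ range s, |h u|) := by
  have h1 : ∑ n ∈ range N, g (n % r) * h (n % s) =
      ∑ t ∈ range r, ∑ u ∈ range s, g t * h u *
        (((range N).filter (fun n => n % r = t ∧ n % s = u)).card : ℝ) := by
    have h2 := Finset.sum_fiberwise_of_maps_to (s := range N) (t := range r ×ˢ range s)
      (g := fun n => (n % r, n % s)) (f := fun n => g (n % r) * h (n % s))
      (fun n _ => by simpa using ⟨Nat.mod_lt n hr, Nat.mod_lt n hs⟩)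
    rw [← h2, Finset.sum_product]
    refine Finset.sum_congr rfl fun t _ => Finset.sum_congr rfl fun u _ => ?_
    rw [Finset.sum_congr rfl (g := fun _ => g t * h u)]
    · rw [Finset.sum_const, nsmul_eq_mul, mul_comm]
      congr 3
      apply Finset.filter_congr
      intro n _
      simp
    · intro n hn
      simp only [mem_filter, Prod.mk.injEq] at hn
      rw [hn.2.1, hn.2.2]
  have h3 : ∑ t ∈ range r, ∑ u ∈ range s, g t * h u * ((N : ℝ) / (r * s)) = 0 := by
    have : ∀ t ∈ range r, ∑ u ∈ range s, g t * h u * ((N : ℝ) / (r * s)) =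
        g t * (∑ u ∈ range s, h u * ((N : ℝ) / (r * s))) := by
      intro t _
      rw [Finset.mul_sum]
      exact Finset.sum_congr rfl fun u _ => by ring
    rw [Finset.sum_congr rfl this, ← Finset.sum_mul, hg, zero_mul]
  have h4 : ∑ n ∈ range N, g (n % r) * h (n % s) =
      ∑ t ∈ range r, ∑ u ∈ range s, g t * h u *
        ((((range N).filter (fun n => n % r = t ∧ n % s = u)).card : ℝ) - (N : ℝ) / (r * s)) := by
    rw [h1, ← sub_zero (∑ t ∈ range r, ∑ u ∈ range s, g t * h u *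
        (((range N).filter (fun n => n % r = t ∧ n % s = u)).card : ℝ)), ← h3,
        ← Finset.sum_sub_distrib]
    refine Finset.sum_congr rfl fun t _ => ?_
    rw [← Finset.sum_sub_distrib]
    exact Finset.sum_congr rfl fun u _ => by ring
  rw [h4, Finset.sum_mul]
  refine (Finset.abs_sum_le_sum_abs _ _).trans (Finset.sum_le_sum fun t ht => ?_)
  rw [Finset.mul_sum]
  refine (Finset.abs_sum_le_sum_abs _ _).trans (Finset.sum_le_sum fun u hu => ?_)
  rw [abs_mul, abs_mul]
  have := count_bound_two hr hs hrs N t u (by simpa using ht) (by simpa using hu)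
  nlinarith [abs_nonneg (g t), abs_nonneg (h u), mul_nonneg (abs_nonneg (g t)) (abs_nonneg (h u))]

/-- elementary large sieve -/
theorem large_sieve (N R : ℕ) (A P : Finset ℕ) (hA : ∀ n ∈ A, n < N)
    (hP : ∀ r ∈ P, r.Prime ∧ r ≤ R) :
    ∑ r ∈ P, (r : ℝ) * ∑ t ∈ range r, (dev A r t) ^ 2 ≤ ((N : ℝ) + R + (R : ℝ) ^ 3) * A.card := by
  set w : ℕ → ℝ := fun r => (r : ℝ) * ∑ t ∈ range r, (dev A r t) ^ 2 with hw
  set D : ℝ := ∑ r ∈ P, w r with hD
  have hw0 : ∀ r, 0 ≤ w r := fun r => mul_nonneg (by positivity) (Finset.sum_nonneg fun t _ => sq_nonneg _)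
  have hD0 : 0 ≤ D := Finset.sum_nonneg fun r _ => hw0 r
  set F : ℕ → ℝ := fun n => ∑ r ∈ P, (r : ℝ) * dev A r (n % r) with hF
  have hDF : D = ∑ n ∈ A, F n := by
    rw [hF, Finset.sum_comm]
    refine Finset.sum_congr rfl fun r hr => ?_
    have hr0 : 0 < r := (hP r hr).1.pos
    rw [← Finset.mul_sum, sum_comp_mod A hr0]
    rw [hw]
    have h1 : ∀ t ∈ range r, dev A r t * cnt A r t = (dev A r t) ^ 2 + dev A r t * ((A.card : ℝ) / r) := by
      intro t _
      have : cnt A r t = dev A r t + (A.card : ℝ) / r := by unfold dev; ring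
      rw [this]; ring
    rw [Finset.sum_congr rfl h1, Finset.sum_add_distrib, ← Finset.sum_mul, sum_dev A hr0]
    ring
  have hCS : D ^ 2 ≤ A.card * ∑ n ∈ range N, F n ^ 2 := by
    rw [hDF]
    have h1 : (∑ n ∈ A, F n) ^ 2 ≤ A.card * ∑ n ∈ A, F n ^ 2 := by
      have := sq_sum_le_card_mul_sum_sq (s := A) (f := F)
      exact this
    refine h1.trans (mul_le_mul_of_nonneg_left ?_ (by positivity))
    refine Finset.sum_le_sum_of_subset_of_nonneg ?_ fun n _ _ => sq_nonneg _
    intro n hn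
    simpa using hA n hn
  set u : ℕ → ℝ := fun r => ∑ t ∈ range r, |dev A r t| with hu
  have hu0 : ∀ r, 0 ≤ u r := fun r => Finset.sum_nonneg fun t _ => abs_nonneg _
  have hu2 : ∀ r, u r ^ 2 ≤ w r := by
    intro r
    have := sq_sum_le_card_mul_sum_sq (s := range r) (f := fun t => |dev A r t|)
    simp only [card_range, sq_abs] at this
    exact this
  have hexp : ∑ n ∈ range N, F n ^ 2 = ∑ r ∈ P, ∑ s ∈ P, (r : ℝ) * s *
      ∑ n ∈ range N, dev A r (n % r) * dev A s (n % s) := by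
    have h1 : ∀ n ∈ range N, F n ^ 2 = ∑ r ∈ P, ∑ s ∈ P, (r : ℝ) * s *
        (dev A r (n % r) * dev A s (n % s)) := by
      intro n _
      rw [hF, sq, Finset.sum_mul_sum]
      exact Finset.sum_congr rfl fun r _ => Finset.sum_congr rfl fun s _ => by ring
    rw [Finset.sum_congr rfl h1, Finset.sum_comm]
    refine Finset.sum_congr rfl fun r _ => ?_
    rw [Finset.sum_comm]
    refine Finset.sum_congr rfl fun s _ => ?_
    rw [Finset.mul_sum]
  have hterm : ∀ r ∈ P, ∀ s ∈ P, (r : ℝ) * s *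
      ∑ n ∈ range N, dev A r (n % r) * dev A s (n % s) ≤
      (if r = s then ((N : ℝ) + R) * w r else 0) + (r * u r) * (s * u s) := by
    intro r hr s hs
    have hr0 := (hP r hr).1.pos
    have hs0 := (hP s hs).1.pos
    have hnn : 0 ≤ ((r : ℝ) * u r) * (s * u s) :=
      mul_nonneg (mul_nonneg (by positivity) (hu0 r)) (mul_nonneg (by positivity) (hu0 s))
    by_cases hrs : r = s
    · subst hrs
      rw [if_pos rfl]
      have h1 : ∑ n ∈ range N, dev A r (n % r) * dev A r (n % r) =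
          ∑ t ∈ range r, (dev A r t) ^ 2 * cnt (range N) r t := by
        rw [← sum_comp_mod (range N) hr0 (fun t => dev A r t ^ 2)]
        exact Finset.sum_congr rfl fun n _ => by ring
      have h2 : ∀ t ∈ range r, cnt (range N) r t ≤ (N : ℝ) / r + 1 := by
        intro t ht
        have := count_bound hr0 N t (by simpa using ht)
        unfold cnt
        linarith [(abs_le.mp this).2]
      have h3 : ∑ t ∈ range r, (dev A r t) ^ 2 * cnt (range N) r t ≤
          ∑ t ∈ range r, (dev A r t) ^ 2 * ((N : ℝ) / r + 1) :=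
        Finset.sum_le_sum fun t ht => mul_le_mul_of_nonneg_left (h2 t ht) (sq_nonneg _)
      rw [← Finset.sum_mul] at h3
      have hrR : (r : ℝ) ≤ R := by exact_mod_cast (hP r hr).2
      have hrpos : (0 : ℝ) < r := by exact_mod_cast hr0
      have h4 : (r : ℝ) * r * ((∑ t ∈ range r, (dev A r t) ^ 2) * ((N : ℝ) / r + 1)) =
          (N + r) * w r := by
        rw [hw]; field_simp
      calc (r : ℝ) * r * ∑ n ∈ range N, dev A r (n % r) * dev A r (n % r)
          ≤ (r : ℝ) * r * ((∑ t ∈ range r, (dev A r t) ^ 2) * ((N : ℝ) / r + 1)) := by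
            rw [h1]; exact mul_le_mul_of_nonneg_left h3 (by positivity)
        _ = (N + r) * w r := h4
        _ ≤ (N + R) * w r := mul_le_mul_of_nonneg_right (by linarith) (hw0 r)
        _ ≤ _ := by linarith
    · rw [if_neg hrs]
      have hcop : r.Coprime s := (Nat.coprime_primes (hP r hr).1 (hP s hs).1).mpr hrs
      have h1 := cross_bound hr0 hs0 hcop N (dev A r) (dev A s) (sum_dev A hr0)
      have h2 := (abs_le.mp h1).2
      have h3 : (0 : ℝ) ≤ (r : ℝ) * s := by positivity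
      calc (r : ℝ) * s * ∑ n ∈ range N, dev A r (n % r) * dev A s (n % s)
          ≤ (r : ℝ) * s * (u r * u s) := mul_le_mul_of_nonneg_left h2 h3
        _ = 0 + (r * u r) * (s * u s) := by ring
  have hsum : ∑ n ∈ range N, F n ^ 2 ≤ ((N : ℝ) + R) * D + (∑ r ∈ P, (r : ℝ) * u r) ^ 2 := by
    rw [hexp]
    refine (Finset.sum_le_sum fun r hr => Finset.sum_le_sum fun s hs => hterm r hr s hs).trans ?_
    have h1 : ∑ r ∈ P, ∑ s ∈ P, ((if r = s then ((N : ℝ) + R) * w r else 0) + (r * u r) * (s * u s))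
        = (∑ r ∈ P, ((N : ℝ) + R) * w r) + (∑ r ∈ P, (r : ℝ) * u r) ^ 2 := by
      simp_rw [Finset.sum_add_distrib]
      congr 1
      · refine Finset.sum_congr rfl fun r hr => ?_
        rw [Finset.sum_ite_eq P r, if_pos hr]
      · rw [sq, Finset.sum_mul_sum]
    rw [h1, ← Finset.mul_sum]
  have hu3 : (∑ r ∈ P, (r : ℝ) * u r) ^ 2 ≤ (R : ℝ) ^ 3 * D := by
    have h1 := Finset.sum_mul_sq_le_sq_mul_sq P (fun r => (r : ℝ)) u
    have h2 : ∑ r ∈ P, u r ^ 2 ≤ D := Finset.sum_le_sum fun r _ => hu2 r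
    have h3 : ∑ r ∈ P, (r : ℝ) ^ 2 ≤ (R : ℝ) ^ 3 := by
      have h4 : ∑ r ∈ P, (r : ℝ) ^ 2 ≤ ∑ _r ∈ P, (R : ℝ) ^ 2 :=
        Finset.sum_le_sum fun r hr => by
          have : (r : ℝ) ≤ R := by exact_mod_cast (hP r hr).2
          have h0 : (0 : ℝ) ≤ r := by positivity
          nlinarith
      have h5 : (P.card : ℝ) ≤ R := by
        have : P ⊆ Finset.Icc 1 R := by
          intro r hr
          simp only [Finset.mem_Icc]
          exact ⟨(hP r hr).1.pos, (hP r hr).2⟩
        have := Finset.card_le_card this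
        simp at this
        exact_mod_cast this
      rw [Finset.sum_const, nsmul_eq_mul] at h4
      have h6 : (P.card : ℝ) * (R : ℝ) ^ 2 ≤ R * (R : ℝ) ^ 2 :=
        mul_le_mul_of_nonneg_right h5 (by positivity)
      calc ∑ r ∈ P, (r : ℝ) ^ 2 ≤ _ := h4
        _ ≤ _ := h6
        _ = (R : ℝ) ^ 3 := by ring
    calc (∑ r ∈ P, (r : ℝ) * u r) ^ 2 ≤ (∑ r ∈ P, (r : ℝ) ^ 2) * ∑ r ∈ P, u r ^ 2 := h1
      _ ≤ (R : ℝ) ^ 3 * D := mul_le_mul h3 h2 (Finset.sum_nonneg fun _ _ => sq_nonneg _) (by positivity)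
  have hfin : D ^ 2 ≤ (((N : ℝ) + R + (R : ℝ) ^ 3) * A.card) * D := by
    have hc : (0 : ℝ) ≤ A.card := by positivity
    calc D ^ 2 ≤ A.card * ∑ n ∈ range N, F n ^ 2 := hCS
      _ ≤ A.card * (((N : ℝ) + R) * D + (R : ℝ) ^ 3 * D) :=
        mul_le_mul_of_nonneg_left (by linarith) hc
      _ = _ := by ring
  rcases hD0.eq_or_lt with h0 | h0
  · rw [← h0]; positivity
  · have : D * D ≤ (((N : ℝ) + R + (R : ℝ) ^ 3) * A.card) * D := by rw [← sq]; exact hfin
    exact le_of_mul_le_mul_right this h0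

end Pool.Agent.Lib.EH
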