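import Pool.Agent.Lib.EH.Basic

/-! If a residue class is bad, almost all its lifts are bad. -/

namespace Pool.Agent.Lib.EH

open Finset Pool.Agent.Results.MP_00e23e_nt

/-- variance over the lifts -/
noncomputable def V (x : ℝ) (d l r : ℕ) : ℝ := ∑ t ∈ range r, (dev (nn x d l) r t) ^ 2

lemma V_nonneg (x : ℝ) (d l r : ℕ) : 0 ≤ V x d l r := Finset.sum_nonneg fun _ _ => sq_nonneg _

lemma zero_one {x : ℝ} (hx : 2 ≤ x) {d l r : ℕ} (hd : 1 ≤ d) (hl1 : 1 ≤ l) (hl2 : l ≤ d)
    (hr : r.Prime) (hrd : d.Coprime r) {e : ℝ}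
    (he : e < |err x d l| / (4 * r))
    (hli : li x / (d.totient * ((r : ℝ) - 1)) ≤ |err x d l| / 2) :
    (goodCount x (d * r) r l e : ℝ) * (|err x d l| / (4 * r)) ^ 2 ≤ V x d l r := by
  have hr0 : 0 < r := hr.pos
  have hrR : (2 : ℝ) ≤ r := by exact_mod_cast hr.two_le
  have hr1 : (0 : ℝ) < (r : ℝ) - 1 := by linarith
  have hφ : (0 : ℝ) < d.totient := by exact_mod_cast Nat.totient_pos.mpr hd
  set Δ := |err x d l| with hΔ
  have h1 := good_le (x := x) (r := r) hd hl1 hl2 hr0 e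
  have h2 : (goodCount x (d * r) r l e : ℝ) ≤
      (((range r).filter (fun t => |err x (d * r) (l + d * t)| ≤ e)).card : ℝ) := by
    exact_mod_cast h1
  have h3 : (((range r).filter (fun t => |err x (d * r) (l + d * t)| ≤ e)).card : ℝ) *
      (Δ / (4 * r)) ^ 2 ≤ V x d l r := by
    calc (((range r).filter (fun t => |err x (d * r) (l + d * t)| ≤ e)).card : ℝ) *
        (Δ / (4 * r)) ^ 2
        = ∑ _t ∈ (range r).filter (fun t => |err x (d * r) (l + d * t)| ≤ e), (Δ / (4 * r)) ^ 2 := by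
          rw [Finset.sum_const, nsmul_eq_mul]
      _ ≤ ∑ t ∈ (range r).filter (fun t => |err x (d * r) (l + d * t)| ≤ e),
            (dev (nn x d l) r t) ^ 2 := by
          apply Finset.sum_le_sum
          intro t ht
          simp only [mem_filter, mem_range] at ht
          obtain ⟨ht1, ht2⟩ := ht
          have hc : err x (d * r) (l + d * t) = dev (nn x d l) r t + err x d l / r -
              (li x / (d.totient * ((r : ℝ) - 1))) / r := by
            unfold dev err
            rw [cnt_nn (by linarith) hd hl2 ht1, card_nn (by linarith) hd hl2,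
              Nat.totient_mul hrd, Nat.totient_prime hr]
            push_cast [Nat.cast_sub hr.one_le]
            field_simp
            ring
          have h4 : Δ / (2 * r) ≤ |err x d l / r - (li x / (d.totient * ((r : ℝ) - 1))) / r| := by
            have h5 : |err x d l / r| = Δ / r := by
              rw [abs_div, abs_of_pos (by positivity : (0 : ℝ) < r)]
            have h6 : |(li x / (d.totient * ((r : ℝ) - 1))) / r| ≤ Δ / 2 / r := by
              rw [abs_div, abs_of_pos (by positivity : (0 : ℝ) < r)]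
              apply div_le_div_of_nonneg_right _ (by positivity)
              rw [abs_of_nonneg (div_nonneg (li_nonneg hx) (by positivity))]
              exact hli
            have h7 := abs_sub_abs_le_abs_sub (err x d l / r) ((li x / (d.totient * ((r : ℝ) - 1))) / r)
            rw [h5] at h7
            have h8 : Δ / (2 * r) = Δ / r - Δ / 2 / r := by field_simp; ring
            rw [h8]
            linarith
          have h9 : Δ / (4 * r) ≤ |dev (nn x d l) r t| := by
            have h10 : err x d l / r - (li x / (d.totient * ((r : ℝ) - 1))) / r =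
                err x (d * r) (l + d * t) - dev (nn x d l) r t := by rw [hc]; ring
            rw [h10] at h4
            have h11 := abs_sub (err x (d * r) (l + d * t)) (dev (nn x d l) r t)
            have h12 : Δ / (2 * r) = Δ / (4 * r) + Δ / (4 * r) := by field_simp; ring
            linarith
          have h13 : 0 ≤ Δ / (4 * r) := by positivity
          calc (Δ / (4 * r)) ^ 2 ≤ |dev (nn x d l) r t| ^ 2 := by gcongr
            _ = _ := sq_abs _
      _ ≤ V x d l r := by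
          unfold V
          exact Finset.sum_le_sum_of_subset_of_nonneg (Finset.filter_subset _ _)
            fun _ _ _ => sq_nonneg _
  exact (mul_le_mul_of_nonneg_right h2 (sq_nonneg _)).trans h3

lemma ls_app {x Q : ℝ} {d l : ℕ} (hxd : 1 ≤ x / d) (hQ1 : 1 ≤ Q)
    (hQ : Q ^ 3 ≤ x / d) (P : Finset ℕ) (hP : ∀ r ∈ P, r.Prime ∧ (r : ℝ) ≤ Q) :
    ∑ r ∈ P, (r : ℝ) * V x d l r ≤ 8 * (x / d) ^ 2 := by
  have h1 := large_sieve (⌊x / d⌋₊ + 1) ⌊Q⌋₊ (nn x d l) P
    (fun n hn => by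
      unfold nn at hn
      simp only [mem_filter, mem_range] at hn
      exact hn.1)
    (fun r hr => ⟨(hP r hr).1, Nat.le_floor (hP r hr).2⟩)
  have h2 : ((nn x d l).card : ℝ) ≤ ⌊x / d⌋₊ + 1 := by
    unfold nn
    have := Finset.card_filter_le (range (⌊x / d⌋₊ + 1))
      (fun n => (l + d * n).Prime ∧ l + d * n ≤ ⌊x⌋₊)
    rw [card_range] at this
    exact_mod_cast this
  have h3 : ((⌊x / d⌋₊ : ℕ) : ℝ) ≤ x / d := Nat.floor_le (by linarith)
  have h4 : ((⌊Q⌋₊ : ℕ) : ℝ) ≤ Q := Nat.floor_le (by linarith)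
  have h5 : ((⌊Q⌋₊ : ℕ) : ℝ) ^ 3 ≤ Q ^ 3 := by gcongr
  have h6 : Q ≤ Q ^ 3 := by nlinarith [sq_nonneg (Q - 1)]
  have h7 : (((⌊x / d⌋₊ + 1 : ℕ) : ℝ) + ((⌊Q⌋₊ : ℕ) : ℝ) + ((⌊Q⌋₊ : ℕ) : ℝ) ^ 3) ≤ 4 * (x / d) := by
    push_cast
    linarith
  have h8 : ((nn x d l).card : ℝ) ≤ 2 * (x / d) := by linarith
  calc ∑ r ∈ P, (r : ℝ) * V x d l r ≤ _ := h1
    _ ≤ (4 * (x / d)) * (2 * (x / d)) := mul_le_mul h7 h8 (by positivity) (by positivity)
    _ = _ := by ring

lemma exc_count {x Q K0 Δ : ℝ} {d l : ℕ} (hxd : 1 ≤ x / d) (hQ1 : 1 ≤ Q)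
    (hQ : Q ^ 3 ≤ x / d) (P : Finset ℕ) (hP : ∀ r ∈ P, r.Prime ∧ (r : ℝ) ≤ Q)
    (hK0 : 0 < K0) (hΔ : 0 < Δ) :
    (((P.filter (fun r : ℕ => K0 * Δ ^ 2 ≤ 16 * (r : ℝ) ^ 2 * V x d l r)).card : ℝ)) * (K0 * Δ ^ 2) ≤
      128 * Q * (x / d) ^ 2 := by
  have h1 := ls_app (l := l) hxd hQ1 hQ P hP
  calc (((P.filter (fun r : ℕ => K0 * Δ ^ 2 ≤ 16 * (r : ℝ) ^ 2 * V x d l r)).card : ℝ)) * (K0 * Δ ^ 2)
      = ∑ _r ∈ P.filter (fun r : ℕ => K0 * Δ ^ 2 ≤ 16 * (r : ℝ) ^ 2 * V x d l r), (K0 * Δ ^ 2) := by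
        rw [Finset.sum_const, nsmul_eq_mul]
    _ ≤ ∑ r ∈ P.filter (fun r : ℕ => K0 * Δ ^ 2 ≤ 16 * (r : ℝ) ^ 2 * V x d l r),
          (16 * Q) * ((r : ℝ) * V x d l r) := by
        apply Finset.sum_le_sum
        intro r hr
        simp only [mem_filter] at hr
        refine hr.2.trans ?_
        have h2 := (hP r hr.1).2
        have h3 := V_nonneg x d l r
        have h4 : (0 : ℝ) ≤ r := by positivity
        have h5 : 0 ≤ (r : ℝ) * V x d l r := by positivity
        nlinarith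
    _ ≤ ∑ r ∈ P, (16 * Q) * ((r : ℝ) * V x d l r) := by
        apply Finset.sum_le_sum_of_subset_of_nonneg (Finset.filter_subset _ _)
        intro r _ _
        have h3 := V_nonneg x d l r
        positivity
    _ = (16 * Q) * ∑ r ∈ P, (r : ℝ) * V x d l r := by rw [Finset.mul_sum]
    _ ≤ (16 * Q) * (8 * (x / d) ^ 2) := mul_le_mul_of_nonneg_left h1 (by positivity)
    _ = _ := by ring

end Pool.Agent.Lib.EH
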